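import Pool.Agent.Lib.MP_629a14_nt.Fc.Defs
import Pool.Agent.Lib.MP_629a14_nt.En.Card

/-! Large prime factors of the members of a family which is close to a family of small energy. -/

set_option autoImplicit false

namespace Pool.Agent.Lib.MP_629a14_nt.Fc

open Finset Pool.Agent.Lib.MP_629a14_nt Pool.Agent.Lib.MP_629a14_nt.Rob
  Pool.Agent.Lib.MP_629a14_nt.En

/-- tail of a convergent series -/
private theorem Bad_tail {θ δ : ℝ} (hθ : 0 < θ) (hδ : 0 < δ) :
    ∃ v₀ : ℕ, ∀ T : Finset ℕ, (∀ n ∈ T, v₀ < n) → ∑ n ∈ T, (n : ℝ) ^ (-(1 + θ)) < δ := by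
  have hs : Summable (fun n : ℕ => (n : ℝ) ^ (-(1 + θ))) :=
    Real.summable_nat_rpow.2 (by linarith)
  obtain ⟨S, hS⟩ := summable_iff_vanishing_norm.1 hs δ hδ
  refine ⟨S.sup id, fun T hT => ?_⟩
  have h1 : Disjoint T S := by
    rw [Finset.disjoint_left]
    intro n hn hnS
    have h2 := hT n hn
    have h3 : id n ≤ S.sup id := Finset.le_sup hnS
    simp only [id] at h3
    omega
  exact lt_of_le_of_lt (le_abs_self _) (hS T h1)

/-- The primes in `(v, y]`. -/
noncomputable def pr (v y : ℕ) : Finset ℕ := (range (y + 1)).filter (fun p => p.Prime ∧ v < p)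

/-- The sum of `1/p` over the primes `p ∣ n` in `(v, y]`. -/
noncomputable def GG (v y n : ℕ) : ℝ := ∑ p ∈ pr v y, if p ∣ n then 1 / (p : ℝ) else 0

theorem GG_nonneg (v y n : ℕ) : 0 ≤ GG v y n :=
  sum_nonneg fun p _ => by split_ifs <;> positivity

/-- The average of `GG` over a family of small energy. -/
theorem gg_energy (s : ℕ) (hs : 1 ≤ s) (K η : ℝ) (hK : 0 < K) (hη : 0 < η) :
    ∃ v₀ : ℕ, ∀ v : ℕ, v₀ ≤ v → ∀ (N k : ℕ) (a : Fin k → ℕ), Fam s K N k a → ∀ y : ℕ, y ≤ N →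
      ∑ i, GG v y (a i) ≤ η * k := by
  classical
  have hs0 : (0 : ℝ) < s := by exact_mod_cast hs
  set θ : ℝ := 1 / (2 * s : ℝ) with hθdef
  have hθ : 0 < θ := by positivity
  set A : ℝ := ((s : ℝ) + 1) * K with hA
  have hA0 : 0 < A := by positivity
  have hAθ : 0 < A ^ θ := Real.rpow_pos_of_pos hA0 θ
  obtain ⟨v₀, hv₀⟩ := Bad_tail (δ := η / A ^ θ) hθ (by positivity)
  refine ⟨v₀, fun v hv N k a ha y hy => ?_⟩
  have h1 : ∑ i : Fin k, GG v y (a i) =
      ∑ p ∈ pr v y, (((univ : Finset (Fin k)).filter (fun i => p ∣ a i)).card : ℝ) *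
        (1 / (p : ℝ)) := by
    unfold GG
    rw [Finset.sum_comm]
    refine Finset.sum_congr rfl fun p _ => ?_
    rw [← Finset.sum_filter, Finset.sum_const, nsmul_eq_mul]
  rw [h1]
  have h2 : ∀ p ∈ pr v y, (((univ : Finset (Fin k)).filter (fun i => p ∣ a i)).card : ℝ) *
      (1 / (p : ℝ)) ≤ A ^ θ * k * (p : ℝ) ^ (-(1 + θ)) := by
    intro p hp
    simp only [pr, mem_filter, mem_range] at hp
    obtain ⟨hpN, hpp, hvp⟩ := hp
    have hp0 : (0 : ℝ) < p := by exact_mod_cast hpp.pos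
    have h3 := div_card s hs K hK N k a ha p hpp.one_lt.le (by omega)
    have h4 : (((s : ℝ) + 1) * K / p) ^ (1 / (2 * s : ℝ)) = A ^ θ * (p : ℝ) ^ (-θ) := by
      rw [← hA, ← hθdef, Real.div_rpow hA0.le hp0.le, Real.rpow_neg hp0.le, div_eq_mul_inv]
    rw [h4] at h3
    have h5 : (p : ℝ) ^ (-(1 + θ)) = (p : ℝ) ^ (-θ) * (1 / p) := by
      rw [show -(1 + θ) = -θ + (-1) by ring, Real.rpow_add hp0, Real.rpow_neg_one, one_div]
    rw [h5]
    calc _ ≤ A ^ θ * (p : ℝ) ^ (-θ) * k * (1 / (p : ℝ)) :=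
          mul_le_mul_of_nonneg_right h3 (by positivity)
      _ = _ := by ring
  refine (Finset.sum_le_sum h2).trans ?_
  rw [← Finset.mul_sum]
  have h6 := (hv₀ (pr v y) (by
    intro n hn
    simp only [pr, mem_filter] at hn
    omega)).le
  calc A ^ θ * k * ∑ p ∈ pr v y, (p : ℝ) ^ (-(1 + θ)) ≤ A ^ θ * k * (η / A ^ θ) :=
        mul_le_mul_of_nonneg_left h6 (by positivity)
    _ = η * k := by
      field_simp

/-- The indicator function of the multiples of `p` as a trigonometric polynomial. -/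
theorem ind_fourier (p n : ℕ) (hp : 1 ≤ p) : (((if p ∣ n then 1 else 0 : ℝ)) : ℂ) =
    ∑ h ∈ range p, (1 / (p : ℂ)) * ee (n * ((h : ℝ) / p)) := by
  have hp0 : (p : ℂ) ≠ 0 := by exact_mod_cast (by omega : p ≠ 0)
  have h1 : ∀ h ∈ range p, (1 / (p : ℂ)) * ee (n * ((h : ℝ) / p)) =
      (1 / (p : ℂ)) * ee ((h : ℝ) * (((n : ℤ) : ℝ) / p)) := by
    intro h _
    congr 2
    push_cast
    ring
  rw [sum_congr rfl h1, ← mul_sum, sum_ee_range p (by omega)]
  by_cases hd : p ∣ n
  · rw [if_pos hd, if_pos (by exact_mod_cast hd)]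
    push_cast
    field_simp
  · rw [if_neg hd, if_neg (by exact_mod_cast hd)]
    simp

/-- The averages of `GG` over two families which are close. -/
theorem gg_close {k m : ℕ} {β : ℝ} {a : Fin k → ℕ} {b : Fin m → ℕ} (hc : Close β a b)
    (v y : ℕ) : (∑ j, GG v y (b j)) / (m : ℝ) ≤ (∑ i, GG v y (a i)) / (k : ℝ) + β * y := by
  classical
  have hβ : 0 ≤ β := (norm_nonneg _).trans (hc 0)
  have e : ∀ {l : ℕ} (c : Fin l → ℕ), (∑ j, GG v y (c j)) / (l : ℝ) =
      ∑ p ∈ pr v y, (1 / (p : ℝ)) * ((∑ j, (if p ∣ c j then 1 else 0 : ℝ)) / (l : ℝ)) := by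
    intro l c
    unfold GG
    rw [Finset.sum_comm, sum_div]
    refine sum_congr rfl fun p _ => ?_
    rw [mul_div_assoc']
    congr 1
    rw [mul_sum]
    refine sum_congr rfl fun j _ => ?_
    split_ifs
    · ring
    · ring
  rw [e b, e a]
  have h1 : ∀ p ∈ pr v y, (1 / (p : ℝ)) * ((∑ j, (if p ∣ b j then 1 else 0 : ℝ)) / (m : ℝ)) ≤
      (1 / (p : ℝ)) * ((∑ i, (if p ∣ a i then 1 else 0 : ℝ)) / (k : ℝ)) + β := by
    intro p hp
    simp only [pr, mem_filter, mem_range] at hp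
    have hp1 : 1 ≤ p := hp.2.1.one_lt.le
    have hp0 : (0 : ℝ) < p := by exact_mod_cast hp.2.1.pos
    have h2 := avg_close_real hc (range p) (fun _ => 1 / (p : ℂ)) (fun h => (h : ℝ) / p)
      (fun n => if p ∣ n then 1 else 0) (fun j => ind_fourier p (b j) hp1)
      (fun i => ind_fourier p (a i) hp1)
    have h3 : ∑ x ∈ range p, ‖(1 / (p : ℂ))‖ = 1 := by
      rw [sum_const, card_range, nsmul_eq_mul, norm_div, norm_one, Complex.norm_natCast]
      field_simp
    rw [h3, mul_one] at h2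
    have h4 := (abs_le.1 h2).2
    have h5 : 1 / (p : ℝ) ≤ 1 := by
      rw [div_le_one hp0]
      exact_mod_cast hp1
    have h6 : (1 / (p : ℝ)) * ((∑ j, (if p ∣ b j then 1 else 0 : ℝ)) / (m : ℝ)) ≤
        (1 / (p : ℝ)) * ((∑ i, (if p ∣ a i then 1 else 0 : ℝ)) / (k : ℝ) + β) :=
      mul_le_mul_of_nonneg_left (by linarith) (by positivity)
    have h7 : (1 / (p : ℝ)) * β ≤ β := mul_le_of_le_one_left hβ h5
    rw [mul_add] at h6
    linarith
  refine (sum_le_sum h1).trans ?_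
  rw [sum_add_distrib, sum_const, nsmul_eq_mul]
  have h8 : (pr v y).card ≤ y := by
    have : pr v y ⊆ Icc 1 y := by
      intro p hp
      simp only [pr, mem_filter, mem_range] at hp
      rw [mem_Icc]
      exact ⟨hp.2.1.one_lt.le, by omega⟩
    have := card_le_card this
    rwa [Nat.card_Icc, Nat.add_sub_cancel] at this
  have h9 : ((pr v y).card : ℝ) * β ≤ β * y := by
    rw [mul_comm]
    exact mul_le_mul_of_nonneg_left (by exact_mod_cast h8) hβ
  linarith

/-- The prime factors larger than `y` contribute little. -/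
theorem large_primes (N y n : ℕ) (hn1 : 1 ≤ n) (hn : n ≤ N) (hy : 1 ≤ y) :
    ∑ p ∈ n.primeFactors.filter (fun p => y < p), 1 / (p : ℝ) ≤ 2 * Real.log N / y := by
  have hy0 : (0 : ℝ) < y := by exact_mod_cast hy
  have h1 : ∑ p ∈ n.primeFactors.filter (fun p => y < p), 1 / (p : ℝ) ≤
      (n.primeFactors.card : ℝ) * (1 / y) := by
    calc ∑ p ∈ n.primeFactors.filter (fun p => y < p), 1 / (p : ℝ)
        ≤ ∑ _p ∈ n.primeFactors.filter (fun p => y < p), 1 / (y : ℝ) := by
          refine sum_le_sum fun p hp => ?_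
          have := (mem_filter.1 hp).2
          exact one_div_le_one_div_of_le hy0 (by exact_mod_cast this.le)
      _ = ((n.primeFactors.filter (fun p => y < p)).card : ℝ) * (1 / y) := by
          rw [sum_const, nsmul_eq_mul]
      _ ≤ _ := mul_le_mul_of_nonneg_right (by exact_mod_cast card_filter_le _ _) (by positivity)
  have h2 : 2 ^ n.primeFactors.card ≤ n := by
    calc 2 ^ n.primeFactors.card ≤ ∏ p ∈ n.primeFactors, p := by
          rw [← prod_const]
          exact prod_le_prod' fun p hp => (Nat.prime_of_mem_primeFactors hp).two_le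
      _ ≤ n := Nat.le_of_dvd (by omega) (Nat.prod_primeFactors_dvd n)
  have h3 : (n.primeFactors.card : ℝ) * Real.log 2 ≤ Real.log N := by
    have h4 : ((2 : ℝ) ^ n.primeFactors.card) ≤ N := by exact_mod_cast h2.trans hn
    have h5 := Real.log_le_log (by positivity) h4
    rwa [Real.log_pow] at h5
  have h6 := Real.log_two_gt_d9
  have h7 : (n.primeFactors.card : ℝ) ≤ 2 * Real.log N := by
    have : (0 : ℝ) ≤ n.primeFactors.card := by positivity
    nlinarith
  calc _ ≤ _ := h1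
    _ ≤ (2 * Real.log N) * (1 / y) := mul_le_mul_of_nonneg_right h7 (by positivity)
    _ = _ := by ring

theorem split_sum (v y n : ℕ) (hn : 1 ≤ n) :
    ∑ p ∈ n.primeFactors.filter (fun p => v < p), 1 / (p : ℝ) ≤
      GG v y n + ∑ p ∈ n.primeFactors.filter (fun p => y < p), 1 / (p : ℝ) := by
  classical
  have h1 : GG v y n = ∑ p ∈ n.primeFactors.filter (fun p => v < p ∧ p ≤ y), 1 / (p : ℝ) := by
    unfold GG
    rw [← sum_filter]
    refine sum_congr ?_ fun _ _ => rfl
    ext p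
    simp only [pr, mem_filter, mem_range, Nat.mem_primeFactors]
    constructor
    · rintro ⟨⟨h1, h2, h3⟩, h4⟩
      exact ⟨⟨h2, h4, by omega⟩, h3, by omega⟩
    · rintro ⟨⟨h2, h4, _⟩, h3, h5⟩
      exact ⟨⟨by omega, h2, h3⟩, h4⟩
  rw [h1, ← sum_filter_add_sum_filter_not (n.primeFactors.filter (fun p => v < p))
    (fun p => p ≤ y)]
  refine add_le_add ?_ ?_
  · rw [filter_filter]
  · rw [filter_filter]
    refine sum_le_sum_of_subset_of_nonneg ?_ fun _ _ _ => by positivity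
    intro p hp
    rw [mem_filter] at hp ⊢
    exact ⟨hp.1, by omega⟩

/-- The proportion of the members of `b` with many large prime factors. -/
theorem bad_close (s : ℕ) (hs : 1 ≤ s) (K ε τ : ℝ) (hK : 0 < K) (hε : 0 < ε) (hτ : 0 < τ) :
    ∃ v₀ : ℕ, ∃ N₀ : ℕ, ∀ v : ℕ, v₀ ≤ v → ∀ N : ℕ, N₀ ≤ N → ∀ (k m : ℕ) (β : ℝ) (a : Fin k → ℕ)
      (b : Fin m → ℕ), Fam s K N k a → (∀ j, 1 ≤ b j ∧ b j ≤ N) → Close β a b →
      β ≤ 1 / (Real.log N) ^ 2 →
      (((univ : Finset (Fin m)).filter (fun j =>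
        τ < ∑ p ∈ (b j).primeFactors.filter (fun p => v < p), 1 / (p : ℝ))).card : ℝ) ≤ ε * m := by
  classical
  obtain ⟨v₀, hv₀⟩ := gg_energy s hs K (ε * τ / 3) hK (by positivity)
  -- choice of N
  have hlog : Filter.Tendsto (fun N : ℕ => Real.sqrt (Real.log N)) Filter.atTop Filter.atTop :=
    Filter.Tendsto.comp Real.tendsto_sqrt_atTop
      (Real.tendsto_log_atTop.comp tendsto_natCast_atTop_atTop)
  obtain ⟨N₁, hN₁⟩ := Filter.eventually_atTop.1
    ((hlog.eventually_ge_atTop (12 / (ε * τ))).and (hlog.eventually_ge_atTop 2))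
  have hle : ∀ᶠ N : ℕ in Filter.atTop, (Real.log N) ^ (2 : ℝ) ≤ (N : ℝ) := by
    have h1 := (isLittleO_log_rpow_rpow_atTop 2 (zero_lt_one : (0:ℝ) < 1)).bound
      (zero_lt_one : (0 : ℝ) < 1)
    have h2 := (tendsto_natCast_atTop_atTop (R := ℝ)).eventually h1
    filter_upwards [h2, Filter.eventually_ge_atTop 1] with N h3 h4
    have h5 : (1 : ℝ) ≤ N := by exact_mod_cast h4
    rw [Real.norm_eq_abs, Real.norm_eq_abs, Real.rpow_one, one_mul,
      abs_of_nonneg (by positivity : (0 : ℝ) ≤ (N : ℝ))] at h3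
    exact (le_abs_self _).trans h3
  obtain ⟨N₂, hN₂⟩ := Filter.eventually_atTop.1 hle
  refine ⟨v₀, max (max N₁ N₂) 1, fun v hv N hN k m β a b ha hb hc hβ => ?_⟩
  obtain ⟨h1, h2⟩ := hN₁ N ((le_max_left _ _).trans ((le_max_left _ _).trans hN))
  have h3 := hN₂ N ((le_max_right _ _).trans ((le_max_left _ _).trans hN))
  set x : ℝ := Real.sqrt (Real.log N) with hx
  have hlogx : Real.log N = x ^ 2 := by
    rw [hx, Real.sq_sqrt]
    by_contra hcon
    push Not at hcon
    have h4 : x = 0 := by rw [hx]; exact Real.sqrt_eq_zero_of_nonpos hcon.le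
    linarith
  have hx0 : 0 < x := by linarith
  obtain ⟨y, hy⟩ : ∃ y : ℕ, y = ⌊x ^ 3⌋₊ := ⟨_, rfl⟩
  have hy1 : (y : ℝ) ≤ x ^ 3 := by rw [hy]; exact Nat.floor_le (by positivity)
  have hy2 : x ^ 3 < y + 1 := by rw [hy]; exact Nat.lt_floor_add_one _
  have hx3 : 8 ≤ x ^ 3 := by nlinarith [sq_nonneg x, mul_pos hx0 hx0]
  have hy3 : x ^ 3 / 2 ≤ y := by linarith
  have hy4 : 1 ≤ y := by
    have : (1 : ℝ) ≤ y := by linarith
    exact_mod_cast this
  have hyR : (0 : ℝ) < y := by linarith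
  have hyN : y ≤ N := by
    have h4 : (y : ℝ) ≤ N := by
      refine hy1.trans (le_trans ?_ h3)
      rw [Real.rpow_two, hlogx]
      nlinarith [pow_pos hx0 3]
    exact_mod_cast h4
  have hA := hv₀ v hv N k a ha y hyN
  have hG := gg_close hc v y
  have hA2 : (∑ i, GG v y (a i)) / (k : ℝ) ≤ ε * τ / 3 := by
    rcases Nat.eq_zero_or_pos k with hk | hk
    · subst hk
      simp
      positivity
    · have hk0 : (0 : ℝ) < k := by exact_mod_cast hk
      rw [div_le_iff₀ hk0]
      exact hA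
  have hβ0 : 0 ≤ β := (norm_nonneg _).trans (hc 0)
  have hx1 : 1 / x ≤ ε * τ / 12 := by
    rw [div_le_div_iff₀ hx0 (by norm_num)]
    rw [div_le_iff₀ (by positivity)] at h1
    linarith
  have hβy : β * y ≤ ε * τ / 12 := by
    refine le_trans ?_ hx1
    calc β * y ≤ (1 / (Real.log N) ^ 2) * x ^ 3 := mul_le_mul hβ hy1 hyR.le (by positivity)
      _ = 1 / x := by
          rw [hlogx]
          field_simp
  have hlarge : 2 * Real.log N / y ≤ ε * τ / 3 := by
    calc 2 * Real.log N / y ≤ 2 * Real.log N / (x ^ 3 / 2) := by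
          refine div_le_div_of_nonneg_left ?_ (by positivity) hy3
          rw [hlogx]
          positivity
      _ = 4 * (1 / x) := by
          rw [hlogx]
          field_simp
          ring
      _ ≤ _ := by linarith
  rcases Nat.eq_zero_or_pos m with hm | hm
  · subst hm
    simp
  · have hm0 : (0 : ℝ) < m := by exact_mod_cast hm
    have hGb : ∑ j, GG v y (b j) ≤ (ε * τ / 3 + ε * τ / 12) * m := by
      rw [← div_le_iff₀ hm0]
      linarith
    set B : Finset (Fin m) := (univ : Finset (Fin m)).filter (fun j =>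
        τ < ∑ p ∈ (b j).primeFactors.filter (fun p => v < p), 1 / (p : ℝ)) with hB
    have h7 : (B.card : ℝ) * τ ≤ (ε * τ) * m := by
      calc (B.card : ℝ) * τ = ∑ _j ∈ B, τ := by rw [Finset.sum_const, nsmul_eq_mul]
        _ ≤ ∑ j ∈ B, (GG v y (b j) + ε * τ / 3) := by
          refine Finset.sum_le_sum fun j hj => ?_
          rw [hB, mem_filter] at hj
          have h8 := split_sum v y (b j) (hb j).1
          have h9 := large_primes N y (b j) (hb j).1 (hb j).2 hy4
          linarith [hj.2]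
        _ ≤ ∑ j, (GG v y (b j) + ε * τ / 3) :=
          Finset.sum_le_sum_of_subset_of_nonneg (Finset.subset_univ _) fun j _ _ =>
            add_nonneg (GG_nonneg _ _ _) (by positivity)
        _ = ∑ j, GG v y (b j) + m * (ε * τ / 3) := by
          rw [sum_add_distrib, sum_const, card_univ, Fintype.card_fin, nsmul_eq_mul]
        _ ≤ _ := by nlinarith [mul_pos (mul_pos hε hτ) hm0]
    have h8 : (B.card : ℝ) * τ ≤ (ε * m) * τ := by linarith
    exact le_of_mul_le_mul_right h8 hτ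

end Pool.Agent.Lib.MP_629a14_nt.Fc
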