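import Pool.Agent.Lib.MP_629a14_nt.En.Conv

/-! Families with close Fourier transforms. -/

set_option autoImplicit false

namespace Pool.Agent.Lib.MP_629a14_nt.Fc

open Finset Pool.Agent.Lib.MP_629a14_nt Pool.Agent.Lib.MP_629a14_nt.Rob
  Pool.Agent.Lib.MP_629a14_nt.En

/-- The averages of `e(t a_i)` and of `e(t b_j)` differ by at most `β`, for every real `t`. -/
def Close {k m : ℕ} (β : ℝ) (a : Fin k → ℕ) (b : Fin m → ℕ) : Prop :=
  ∀ t : ℝ, ‖(∑ j, ee (b j * t)) / (m : ℂ) - (∑ i, ee (a i * t)) / (k : ℂ)‖ ≤ β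

/-- The Fourier transform of `ff * ff - nu * nu`. -/
noncomputable def FF (v N h : ℕ) : ℂ := gh v N (fr N h) * gp v N (fr N h)

/-- A trigonometric polynomial has nearly the same average over two families which are close. -/
theorem avg_close {k m : ℕ} {β : ℝ} {a : Fin k → ℕ} {b : Fin m → ℕ} (h : Close β a b)
    {ι : Type} (X : Finset ι) (c : ι → ℂ) (t : ι → ℝ) (φ : ℕ → ℂ)
    (hb : ∀ j, φ (b j) = ∑ x ∈ X, c x * ee (b j * t x))
    (ha : ∀ i, φ (a i) = ∑ x ∈ X, c x * ee (a i * t x)) :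
    ‖(∑ j, φ (b j)) / (m : ℂ) - (∑ i, φ (a i)) / (k : ℂ)‖ ≤ β * ∑ x ∈ X, ‖c x‖ := by
  have e : (∑ j, φ (b j)) / (m : ℂ) - (∑ i, φ (a i)) / (k : ℂ) =
      ∑ x ∈ X, c x * ((∑ j, ee (b j * t x)) / (m : ℂ) - (∑ i, ee (a i * t x)) / (k : ℂ)) := by
    rw [sum_congr rfl fun j _ => hb j, sum_congr rfl fun i _ => ha i, sum_comm,
      sum_comm (s := (univ : Finset (Fin k))), sum_div, sum_div, ← sum_sub_distrib]
    refine sum_congr rfl fun x _ => ?_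
    rw [← mul_sum, ← mul_sum]
    ring
  rw [e, mul_sum]
  refine (norm_sum_le _ _).trans (sum_le_sum fun x _ => ?_)
  rw [norm_mul, mul_comm β]
  exact mul_le_mul_of_nonneg_left (h (t x)) (norm_nonneg _)

/-- Real version of `avg_close`. -/
theorem avg_close_real {k m : ℕ} {β : ℝ} {a : Fin k → ℕ} {b : Fin m → ℕ} (h : Close β a b)
    {ι : Type} (X : Finset ι) (c : ι → ℂ) (t : ι → ℝ) (φ : ℕ → ℝ)
    (hb : ∀ j, (φ (b j) : ℂ) = ∑ x ∈ X, c x * ee (b j * t x))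
    (ha : ∀ i, (φ (a i) : ℂ) = ∑ x ∈ X, c x * ee (a i * t x)) :
    |(∑ j, φ (b j)) / (m : ℝ) - (∑ i, φ (a i)) / (k : ℝ)| ≤ β * ∑ x ∈ X, ‖c x‖ := by
  have h1 := avg_close h X c t (fun n => (φ n : ℂ)) hb ha
  have e : (∑ j, (φ (b j) : ℂ)) / (m : ℂ) - (∑ i, (φ (a i) : ℂ)) / (k : ℂ) =
      (((∑ j, φ (b j)) / (m : ℝ) - (∑ i, φ (a i)) / (k : ℝ) : ℝ) : ℂ) := by
    push_cast
    rfl
  rw [e, Complex.norm_real, Real.norm_eq_abs] at h1
  exact h1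

end Pool.Agent.Lib.MP_629a14_nt.Fc
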