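import Pool.Agent.Lib.MP_629a14_nt.Fc.Defs
import Pool.Agent.Lib.MP_629a14_nt.Rob.GHat

/-! The sum of the absolute values of `FF`. -/

set_option autoImplicit false

namespace Pool.Agent.Lib.MP_629a14_nt.Fc

open Finset Pool.Agent.Lib.MP_629a14_nt Pool.Agent.Lib.MP_629a14_nt.Rob
  Pool.Agent.Lib.MP_629a14_nt.En

theorem gp_eq (v N : ℕ) (α : ℝ) :
    gp v N α = ∑ m ∈ Icc 1 N, ((ff N m + nu v m : ℝ) : ℂ) * ee (m * α) := by
  unfold gp SP SN
  rw [mul_sum, sum_filter, ← sum_add_distrib]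
  refine sum_congr rfl fun m _ => ?_
  unfold ff
  split_ifs
  · push_cast
    ring
  · push_cast
    ring

theorem ff_sq_sum : ∃ N₀ : ℕ, ∀ N : ℕ, N₀ ≤ N →
    ∑ m ∈ Icc 1 N, ff N m ^ 2 ≤ 2 * N * Real.log N := by
  obtain ⟨N₀, h⟩ := card_primes_le
  refine ⟨max N₀ 2, fun N hN => ?_⟩
  have h1 := h N (le_of_max_le_left hN)
  have hN2 : 2 ≤ N := le_of_max_le_right hN
  have hl : 0 < Real.log N := Real.log_pos (by exact_mod_cast hN2)
  have e : ∑ m ∈ Icc 1 N, ff N m ^ 2 =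
      (((Icc 1 N).filter Nat.Prime).card : ℝ) * (Real.log N) ^ 2 := by
    have : ∀ m ∈ Icc 1 N, ff N m ^ 2 = if m.Prime then (Real.log N) ^ 2 else 0 := by
      intro m _
      unfold ff
      split_ifs
      · rfl
      · norm_num
    rw [sum_congr rfl this, ← sum_filter, sum_const, nsmul_eq_mul]
  rw [e]
  calc (((Icc 1 N).filter Nat.Prime).card : ℝ) * (Real.log N) ^ 2
      ≤ (2 * (N / Real.log N)) * (Real.log N) ^ 2 :=
        mul_le_mul_of_nonneg_right h1 (by positivity)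
    _ = 2 * N * Real.log N := by
        field_simp

theorem nu_sq_sum (v N : ℕ) : ∑ m ∈ Icc 1 N, nu v m ^ 2 ≤ kap v ^ 2 * N := by
  calc ∑ m ∈ Icc 1 N, nu v m ^ 2 ≤ ∑ _m ∈ Icc 1 N, kap v ^ 2 :=
        sum_le_sum fun m _ => pow_le_pow_left₀ (nu_nonneg v m) (nu_le v m) 2
    _ = kap v ^ 2 * N := by
        rw [sum_const, Nat.card_Icc, Nat.add_sub_cancel, nsmul_eq_mul]
        ring

/-- Parseval and the Cauchy-Schwarz inequality. -/
theorem l_one (v : ℕ) : ∃ N₀ : ℕ, ∀ N : ℕ, N₀ ≤ N →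
    ∑ h ∈ range (2 * N + 1), ‖FF v N h‖ ≤ 6 * (2 * (N : ℝ) + 1) * (N * Real.log N) := by
  obtain ⟨N₁, h1⟩ := ff_sq_sum
  have hlog : Filter.Tendsto (fun N : ℕ => Real.log N) Filter.atTop Filter.atTop :=
    Real.tendsto_log_atTop.comp tendsto_natCast_atTop_atTop
  obtain ⟨N₂, h2⟩ := Filter.eventually_atTop.1 (hlog.eventually_ge_atTop (kap v ^ 2))
  refine ⟨max N₁ N₂, fun N hN => ?_⟩
  have a1 := h1 N (le_of_max_le_left hN)
  have a2 := h2 N (le_of_max_le_right hN)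
  have a3 := nu_sq_sum v N
  have hN0 : (0 : ℝ) ≤ N := by positivity
  have hbound : ∀ f : ℕ → ℝ, (∀ m, f m ^ 2 ≤ 2 * (ff N m ^ 2 + nu v m ^ 2)) →
      ∑ h ∈ range (2 * N + 1), ‖∑ m ∈ Icc 1 N, (f m : ℂ) * ee (m * fr N h)‖ ^ 2 ≤
        6 * (2 * (N : ℝ) + 1) * (N * Real.log N) := by
    intro f hf
    rw [parsevalN]
    have b1 : ∑ m ∈ Icc 1 N, f m ^ 2 ≤ 6 * (N * Real.log N) := by
      calc ∑ m ∈ Icc 1 N, f m ^ 2 ≤ ∑ m ∈ Icc 1 N, 2 * (ff N m ^ 2 + nu v m ^ 2) :=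
            sum_le_sum fun m _ => hf m
        _ = 2 * (∑ m ∈ Icc 1 N, ff N m ^ 2 + ∑ m ∈ Icc 1 N, nu v m ^ 2) := by
            rw [← mul_sum, sum_add_distrib]
        _ ≤ 2 * (2 * N * Real.log N + Real.log N * N) := by
            have : kap v ^ 2 * N ≤ Real.log N * N := mul_le_mul_of_nonneg_right a2 hN0
            linarith
        _ = 6 * (N * Real.log N) := by ring
    calc (2 * (N : ℝ) + 1) * ∑ m ∈ Icc 1 N, f m ^ 2
        ≤ (2 * (N : ℝ) + 1) * (6 * (N * Real.log N)) :=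
          mul_le_mul_of_nonneg_left b1 (by positivity)
      _ = _ := by ring
  have hg : ∑ h ∈ range (2 * N + 1), ‖gh v N (fr N h)‖ ^ 2 ≤
      6 * (2 * (N : ℝ) + 1) * (N * Real.log N) := by
    have := hbound (gg v N) (fun m => by
      have e : gg v N m = ff N m - nu v m := rfl
      rw [e]
      nlinarith [sq_nonneg (ff N m + nu v m)])
    refine le_trans (le_of_eq ?_) this
    refine sum_congr rfl fun h _ => ?_
    rw [gh_eq]
  have hp : ∑ h ∈ range (2 * N + 1), ‖gp v N (fr N h)‖ ^ 2 ≤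
      6 * (2 * (N : ℝ) + 1) * (N * Real.log N) := by
    have := hbound (fun m => ff N m + nu v m) (fun m => by
      show (ff N m + nu v m) ^ 2 ≤ _
      nlinarith [sq_nonneg (ff N m - nu v m)])
    refine le_trans (le_of_eq ?_) this
    refine sum_congr rfl fun h _ => ?_
    rw [gp_eq]
  calc ∑ h ∈ range (2 * N + 1), ‖FF v N h‖
      ≤ ∑ h ∈ range (2 * N + 1), (‖gh v N (fr N h)‖ ^ 2 + ‖gp v N (fr N h)‖ ^ 2) / 2 := by
        refine sum_le_sum fun h _ => ?_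
        unfold FF
        rw [norm_mul]
        nlinarith [sq_nonneg (‖gh v N (fr N h)‖ - ‖gp v N (fr N h)‖)]
    _ = (∑ h ∈ range (2 * N + 1), ‖gh v N (fr N h)‖ ^ 2 +
        ∑ h ∈ range (2 * N + 1), ‖gp v N (fr N h)‖ ^ 2) / 2 := by
        rw [← sum_div, sum_add_distrib]
    _ ≤ _ := by linarith

end Pool.Agent.Lib.MP_629a14_nt.Fc
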