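import Mathlib

/-! A trilinear form of Young's inequality. -/

set_option autoImplicit false

namespace Pool.Agent.Lib.MP_629a14_nt.Fc

open Finset

private theorem young_norm {ι : Type} (H : Finset ι) (x : ι → ℝ) (Z : ι → ι → ℝ) (s : ℕ)
    (hs : 1 ≤ s) (p B X : ℝ) (hp : p * (4 * s - 1) = 4 * s) (hx : ∀ h ∈ H, 0 ≤ x h)
    (hZ : ∀ h ∈ H, ∀ h' ∈ H, 0 ≤ Z h h') (hB : 0 < B) (hX : 0 < X)
    (hXeq : ∑ h ∈ H, x h ^ p = X)
    (hrow : ∀ h ∈ H, ∑ h' ∈ H, Z h h' ^ (2 * s) ≤ B)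
    (hcol : ∀ h' ∈ H, ∑ h ∈ H, Z h h' ^ (2 * s) ≤ B) :
    ∑ h ∈ H, ∑ h' ∈ H, x h * x h' * Z h h' ≤ X ^ (2 / p) * B ^ (1 / (2 * s : ℝ)) := by
  have hs1 : (1 : ℝ) ≤ s := by exact_mod_cast hs
  have h41 : (0 : ℝ) < 4 * s - 1 := by linarith
  have hp0 : 0 < p := by
    by_contra hcon
    push Not at hcon
    nlinarith
  have hpe : p = 4 * s / (4 * s - 1) := by
    rw [eq_div_iff h41.ne']
    exact hp
  set θ : ℝ := 1 / (4 * s : ℝ) with hθ
  have hθ0 : 0 < θ := by positivity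
  have hθ1 : 2 * θ ≤ 1 := by
    rw [hθ]
    rw [mul_one_div, div_le_one (by positivity)]
    linarith
  -- pointwise inequality
  have hpt : ∀ h ∈ H, ∀ h' ∈ H, x h * x h' * Z h h' ≤ X ^ (2 / p) * B ^ (1 / (2 * s : ℝ)) *
      ((1 - 2 * θ) * (x h ^ p * x h' ^ p / X ^ 2) + θ * (x h ^ p * Z h h' ^ (2 * s) / (X * B)) +
        θ * (x h' ^ p * Z h h' ^ (2 * s) / (X * B))) := by
    intro h hh h' hh'
    have a1 := hx h hh
    have a2 := hx h' hh'
    have a3 := hZ h hh h' hh'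
    have b1 : 0 ≤ x h ^ p := Real.rpow_nonneg a1 _
    have b2 : 0 ≤ x h' ^ p := Real.rpow_nonneg a2 _
    have b3 : 0 ≤ Z h h' ^ (2 * s) := pow_nonneg a3 _
    have hgm := Real.geom_mean_le_arith_mean3_weighted (w₁ := 1 - 2 * θ) (w₂ := θ) (w₃ := θ)
      (p₁ := x h ^ p * x h' ^ p / X ^ 2) (p₂ := x h ^ p * Z h h' ^ (2 * s) / (X * B))
      (p₃ := x h' ^ p * Z h h' ^ (2 * s) / (X * B)) (by linarith) hθ0.le hθ0.le
      (by positivity) (by positivity) (by positivity) (by ring)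
    refine le_trans (le_of_eq ?_) (mul_le_mul_of_nonneg_left hgm (by positivity))
    -- the identity
    have hXB : 0 < X * B := mul_pos hX hB
    have e1 : (x h ^ p * x h' ^ p / X ^ 2) ^ (1 - 2 * θ) =
        x h ^ (p * (1 - 2 * θ)) * x h' ^ (p * (1 - 2 * θ)) / X ^ (2 * (1 - 2 * θ)) := by
      rw [Real.div_rpow (by positivity) (by positivity), Real.mul_rpow b1 b2,
        ← Real.rpow_mul a1, ← Real.rpow_mul a2, ← Real.rpow_natCast, ← Real.rpow_mul hX.le]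
      norm_num
    have e2 : ∀ y : ℝ, 0 ≤ y → (y ^ p * Z h h' ^ (2 * s) / (X * B)) ^ θ =
        y ^ (p * θ) * Z h h' ^ (2 * s * θ) / (X ^ θ * B ^ θ) := by
      intro y hy
      rw [Real.div_rpow (by positivity) (by positivity), Real.mul_rpow (Real.rpow_nonneg hy _) b3,
        ← Real.rpow_mul hy, ← Real.rpow_natCast, ← Real.rpow_mul a3, Real.mul_rpow hX.le hB.le]
      push_cast
      rfl
    rw [e1, e2 _ a1, e2 _ a2]
    have hpw : p * (1 - 2 * θ) + p * θ = 1 := by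
      rw [hpe, hθ]
      field_simp
      ring
    have hx1 : ∀ y : ℝ, 0 ≤ y → y ^ (p * (1 - 2 * θ)) * y ^ (p * θ) = y := by
      intro y hy
      rcases hy.eq_or_lt with h0 | h0
      · rw [← h0]
        have hpθ : p * θ ≠ 0 := (mul_pos hp0 hθ0).ne'
        rw [Real.zero_rpow hpθ, mul_zero]
      · rw [← Real.rpow_add h0, hpw, Real.rpow_one]
    have hz1 : Z h h' ^ (2 * s * θ) * Z h h' ^ (2 * s * θ) = Z h h' := by
      rcases a3.eq_or_lt with h0 | h0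
      · rw [← h0]
        have hsθ : 2 * s * θ ≠ 0 := by positivity
        rw [Real.zero_rpow hsθ, mul_zero]
      · rw [← Real.rpow_add h0]
        have : 2 * (s : ℝ) * θ + 2 * s * θ = 1 := by
          rw [hθ]
          field_simp
          ring
        rw [this, Real.rpow_one]
    have hXX : X ^ (2 / p) = X ^ (2 * (1 - 2 * θ)) * (X ^ θ * X ^ θ) := by
      rw [← Real.rpow_add hX, ← Real.rpow_add hX]
      congr 1
      rw [hpe, hθ]
      field_simp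
      ring
    have hBB : B ^ (1 / (2 * s : ℝ)) = B ^ θ * B ^ θ := by
      rw [← Real.rpow_add hB]
      congr 1
      rw [hθ]
      field_simp
      ring
    rw [hXX, hBB]
    have c1 : (X ^ (2 * (1 - 2 * θ)) : ℝ) ≠ 0 := (Real.rpow_pos_of_pos hX _).ne'
    have c2 : (X ^ θ : ℝ) ≠ 0 := (Real.rpow_pos_of_pos hX _).ne'
    have c3 : (B ^ θ : ℝ) ≠ 0 := (Real.rpow_pos_of_pos hB _).ne'
    have key : X ^ (2 * (1 - 2 * θ)) * (X ^ θ * X ^ θ) * (B ^ θ * B ^ θ) *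
        (x h ^ (p * (1 - 2 * θ)) * x h' ^ (p * (1 - 2 * θ)) / X ^ (2 * (1 - 2 * θ)) *
        (x h ^ (p * θ) * Z h h' ^ (2 * s * θ) / (X ^ θ * B ^ θ)) *
        (x h' ^ (p * θ) * Z h h' ^ (2 * s * θ) / (X ^ θ * B ^ θ))) =
        (x h ^ (p * (1 - 2 * θ)) * x h ^ (p * θ)) * (x h' ^ (p * (1 - 2 * θ)) * x h' ^ (p * θ)) *
        (Z h h' ^ (2 * s * θ) * Z h h' ^ (2 * s * θ)) := by
      field_simp
    rw [key, hx1 _ a1, hx1 _ a2, hz1]
  have hsum1 : ∑ h ∈ H, ∑ h' ∈ H, x h ^ p * x h' ^ p / X ^ 2 = 1 := by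
    have : ∀ h ∈ H, ∑ h' ∈ H, x h ^ p * x h' ^ p / X ^ 2 = x h ^ p * X / X ^ 2 := by
      intro h _
      rw [← hXeq, mul_sum, sum_div]
    rw [sum_congr rfl this, ← sum_div, ← sum_mul, hXeq]
    field_simp
  have hsum2 : ∑ h ∈ H, ∑ h' ∈ H, x h ^ p * Z h h' ^ (2 * s) / (X * B) ≤ 1 := by
    have h1 : ∀ h ∈ H, ∑ h' ∈ H, x h ^ p * Z h h' ^ (2 * s) / (X * B) ≤ x h ^ p * B / (X * B) := by
      intro h hh
      rw [← sum_div, ← mul_sum]
      exact div_le_div_of_nonneg_right (mul_le_mul_of_nonneg_left (hrow h hh)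
        (Real.rpow_nonneg (hx h hh) _)) (by positivity)
    refine (sum_le_sum h1).trans (le_of_eq ?_)
    rw [← sum_div, ← sum_mul, hXeq]
    field_simp
  have hsum3 : ∑ h ∈ H, ∑ h' ∈ H, x h' ^ p * Z h h' ^ (2 * s) / (X * B) ≤ 1 := by
    rw [sum_comm]
    have h1 : ∀ h' ∈ H, ∑ h ∈ H, x h' ^ p * Z h h' ^ (2 * s) / (X * B) ≤
        x h' ^ p * B / (X * B) := by
      intro h' hh'
      rw [← sum_div, ← mul_sum]
      exact div_le_div_of_nonneg_right (mul_le_mul_of_nonneg_left (hcol h' hh')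
        (Real.rpow_nonneg (hx h' hh') _)) (by positivity)
    refine (sum_le_sum h1).trans (le_of_eq ?_)
    rw [← sum_div, ← sum_mul, hXeq]
    field_simp
  calc ∑ h ∈ H, ∑ h' ∈ H, x h * x h' * Z h h'
      ≤ ∑ h ∈ H, ∑ h' ∈ H, X ^ (2 / p) * B ^ (1 / (2 * s : ℝ)) *
      ((1 - 2 * θ) * (x h ^ p * x h' ^ p / X ^ 2) + θ * (x h ^ p * Z h h' ^ (2 * s) / (X * B)) +
        θ * (x h' ^ p * Z h h' ^ (2 * s) / (X * B))) :=
        sum_le_sum fun h hh => sum_le_sum fun h' hh' => hpt h hh h' hh'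
    _ = X ^ (2 / p) * B ^ (1 / (2 * s : ℝ)) *
        ((1 - 2 * θ) * (∑ h ∈ H, ∑ h' ∈ H, x h ^ p * x h' ^ p / X ^ 2) +
        θ * (∑ h ∈ H, ∑ h' ∈ H, x h ^ p * Z h h' ^ (2 * s) / (X * B)) +
        θ * (∑ h ∈ H, ∑ h' ∈ H, x h' ^ p * Z h h' ^ (2 * s) / (X * B))) := by
        simp_rw [mul_sum, ← sum_add_distrib, mul_sum]
    _ ≤ X ^ (2 / p) * B ^ (1 / (2 * s : ℝ)) * 1 := by
        refine mul_le_mul_of_nonneg_left ?_ (by positivity)
        rw [hsum1]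
        nlinarith
    _ = _ := mul_one _

/-- Young's inequality for a kernel whose rows and columns have bounded moments of order `2 s`;
`p = 4 s / (4 s - 1)`. -/
theorem young {ι : Type} (H : Finset ι) (x : ι → ℝ) (Z : ι → ι → ℝ) (s : ℕ)
    (hs : 1 ≤ s) (p B : ℝ) (hp : p * (4 * s - 1) = 4 * s) (hx : ∀ h ∈ H, 0 ≤ x h)
    (hZ : ∀ h ∈ H, ∀ h' ∈ H, 0 ≤ Z h h') (hB : 0 ≤ B)
    (hrow : ∀ h ∈ H, ∑ h' ∈ H, Z h h' ^ (2 * s) ≤ B)
    (hcol : ∀ h' ∈ H, ∑ h ∈ H, Z h h' ^ (2 * s) ≤ B) :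
    ∑ h ∈ H, ∑ h' ∈ H, x h * x h' * Z h h' ≤
      (∑ h ∈ H, x h ^ p) ^ (2 / p) * B ^ (1 / (2 * s : ℝ)) := by
  have hs1 : (1 : ℝ) ≤ s := by exact_mod_cast hs
  have h41 : (0 : ℝ) < 4 * s - 1 := by linarith
  have hp0 : 0 < p := by
    by_contra hcon
    push Not at hcon
    nlinarith
  have hXnn : 0 ≤ ∑ h ∈ H, x h ^ p := sum_nonneg fun h hh => Real.rpow_nonneg (hx h hh) _
  have hR : 0 ≤ (∑ h ∈ H, x h ^ p) ^ (2 / p) * B ^ (1 / (2 * s : ℝ)) :=
    mul_nonneg (Real.rpow_nonneg hXnn _) (Real.rpow_nonneg hB _)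
  rcases hXnn.eq_or_lt with hX0 | hX0
  · have h1 : ∀ h ∈ H, x h = 0 := by
      intro h hh
      have h2 := (sum_eq_zero_iff_of_nonneg fun h hh => Real.rpow_nonneg (hx h hh) p).1 hX0.symm h hh
      rcases (hx h hh).eq_or_lt with h3 | h3
      · exact h3.symm
      · exact absurd h2 (Real.rpow_pos_of_pos h3 p).ne'
    have h2 : ∑ h ∈ H, ∑ h' ∈ H, x h * x h' * Z h h' = 0 :=
      sum_eq_zero fun h hh => sum_eq_zero fun h' _ => by rw [h1 h hh]; ring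
    rw [h2]
    exact hR
  · rcases hB.eq_or_lt with hB0 | hB0
    · have h2 : ∑ h ∈ H, ∑ h' ∈ H, x h * x h' * Z h h' = 0 := by
        refine sum_eq_zero fun h hh => sum_eq_zero fun h' hh' => ?_
        have h3 := hrow h hh
        rw [← hB0] at h3
        have h4 : Z h h' ^ (2 * s) ≤ 0 :=
          (single_le_sum (f := fun h' => Z h h' ^ (2 * s))
            (fun h' hh' => pow_nonneg (hZ h hh h' hh') _) hh').trans h3
        have h5 : Z h h' = 0 := by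
          have h6 : Z h h' ^ (2 * s) = 0 := le_antisymm h4 (pow_nonneg (hZ h hh h' hh') _)
          exact pow_eq_zero_iff (by omega) |>.1 h6
        rw [h5]
        ring
      rw [h2]
      exact hR
    · exact young_norm H x Z s hs p B _ hp hx hZ hB0 hX0 rfl hrow hcol

end Pool.Agent.Lib.MP_629a14_nt.Fc
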