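import Pool.Agent.Lib.MP_629a14_nt.Fc.Sq
import Pool.Agent.Lib.MP_629a14_nt.Fc.Young
import Pool.Agent.Lib.MP_629a14_nt.En.Dev

/-! The mean square of the deviation over a family of small energy. -/

set_option autoImplicit false

namespace Pool.Agent.Lib.MP_629a14_nt.Fc

open Finset Pool.Agent.Lib.MP_629a14_nt Pool.Agent.Lib.MP_629a14_nt.Rob
  Pool.Agent.Lib.MP_629a14_nt.En

private theorem eventually_small (A c η : ℝ) (hA : 0 ≤ A) (hc : 0 < c) (hη : 0 < η) :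
    ∃ v₀ : ℕ, ∀ v : ℕ, v₀ ≤ v → A * (Real.log v) ^ 4 ≤ η * (v : ℝ) ^ c := by
  have h1 : (fun x : ℝ => (Real.log x) ^ (4 : ℝ)) =o[Filter.atTop] fun x : ℝ => x ^ c :=
    isLittleO_log_rpow_rpow_atTop 4 hc
  have h2 := h1.def (c := η / (A + 1)) (by positivity)
  rw [Filter.eventually_atTop] at h2
  obtain ⟨x₀, hx₀⟩ := h2
  refine ⟨⌈x₀⌉₊ + 1, fun v hv => ?_⟩
  have hv1 : x₀ ≤ v := (Nat.le_ceil x₀).trans (by exact_mod_cast (by omega : ⌈x₀⌉₊ ≤ v))
  have h3 := hx₀ v hv1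
  have e4 : (Real.log (v : ℝ)) ^ (4 : ℝ) = (Real.log v) ^ 4 := by
    rw [← Real.rpow_natCast]
    norm_num
  rw [Real.norm_eq_abs, Real.norm_eq_abs, e4, abs_of_nonneg (by positivity),
    abs_of_nonneg (by positivity)] at h3
  have hvc : 0 ≤ (v : ℝ) ^ c := by positivity
  calc A * (Real.log v) ^ 4 ≤ A * (η / (A + 1) * (v : ℝ) ^ c) :=
        mul_le_mul_of_nonneg_left h3 hA
    _ = (A / (A + 1)) * (η * (v : ℝ) ^ c) := by
        field_simp
    _ ≤ 1 * (η * (v : ℝ) ^ c) := by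
        apply mul_le_mul_of_nonneg_right _ (by positivity)
        rw [div_le_one (by positivity)]
        linarith
    _ = η * (v : ℝ) ^ c := one_mul _

private theorem root_X {r p δ C κ V n S : ℝ} (hδ : 0 < δ) (hp : p = 2 + δ) (hr : r = 2 + 2 * δ)
    (hC : 0 < C) (hκ : 1 ≤ κ) (hV : 0 < V) (hn : 0 < n) (hS0 : 0 ≤ S)
    (hS : S ≤ (2 / V * n) ^ (r - p) * (C * n ^ p * κ ^ p)) :
    S ^ (1 / r) ≤ (2 ^ δ * C) ^ (1 / r) * V ^ (-(δ / r)) * n * κ := by
  have hr0 : 0 < r := by rw [hr]; linarith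
  have hκ0 : 0 < κ := by linarith
  have hrp : r - p = δ := by rw [hr, hp]; ring
  have h1 : S ≤ (2 ^ δ * C) * V ^ (-δ) * n ^ r * κ ^ r := by
    refine hS.trans ?_
    rw [hrp, show (2 / V * n) = 2 * V⁻¹ * n by ring, Real.mul_rpow (by positivity) hn.le,
      Real.mul_rpow (by norm_num) (by positivity), Real.inv_rpow hV.le, ← Real.rpow_neg hV.le]
    have e1 : n ^ r = n ^ δ * n ^ p := by
      rw [← Real.rpow_add hn]; congr 1; rw [hr, hp]; ring
    have e2 : κ ^ p ≤ κ ^ r := Real.rpow_le_rpow_of_exponent_le hκ (by rw [hr, hp]; linarith)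
    rw [e1]
    calc 2 ^ δ * V ^ (-δ) * n ^ δ * (C * n ^ p * κ ^ p)
        = (2 ^ δ * C * V ^ (-δ) * (n ^ δ * n ^ p)) * κ ^ p := by ring
      _ ≤ (2 ^ δ * C * V ^ (-δ) * (n ^ δ * n ^ p)) * κ ^ r :=
          mul_le_mul_of_nonneg_left e2 (by positivity)
  calc S ^ (1 / r) ≤ ((2 ^ δ * C) * V ^ (-δ) * n ^ r * κ ^ r) ^ (1 / r) :=
        Real.rpow_le_rpow hS0 h1 (by positivity)
    _ = (2 ^ δ * C) ^ (1 / r) * V ^ (-(δ / r)) * n * κ := by
        rw [Real.mul_rpow (by positivity) (by positivity),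
          Real.mul_rpow (by positivity) (by positivity),
          Real.mul_rpow (by positivity) (by positivity), ← Real.rpow_mul hV.le,
          ← Real.rpow_mul hn.le, ← Real.rpow_mul hκ0.le, mul_one_div_cancel hr0.ne',
          Real.rpow_one, Real.rpow_one]
        congr 4
        ring

private theorem root_Y {r C κ n S : ℝ} (hr0 : 0 < r)
    (hC : 0 < C) (hκ : 1 ≤ κ) (hn : 0 < n) (hS0 : 0 ≤ S)
    (hS : S ≤ C * n ^ r * κ ^ r) : S ^ (1 / r) ≤ C ^ (1 / r) * n * κ := by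
  have hκ0 : 0 < κ := by linarith
  calc S ^ (1 / r) ≤ (C * n ^ r * κ ^ r) ^ (1 / r) := Real.rpow_le_rpow hS0 hS (by positivity)
    _ = C ^ (1 / r) * n * κ := by
        rw [Real.mul_rpow (by positivity) (by positivity),
          Real.mul_rpow (by positivity) (by positivity),
          ← Real.rpow_mul hn.le, ← Real.rpow_mul hκ0.le, mul_one_div_cancel hr0.ne',
          Real.rpow_one, Real.rpow_one]

private theorem root_Z {s : ℕ} (hs : 1 ≤ s) {K n k E S : ℝ} (hK : 0 < K) (hn : 1 ≤ n) (hk : 0 ≤ k)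
    (hE : 0 ≤ E) (hS0 : 0 ≤ S)
    (hS : S ≤ s * (2 * n + 1) * E) (hNE : n * E ≤ K * k ^ (2 * s)) :
    S ^ (1 / (2 * s : ℝ)) ≤ (3 * s * K) ^ (1 / (2 * s : ℝ)) * k := by
  have hs0 : (0 : ℝ) < s := by exact_mod_cast hs
  have h1 : S ≤ (3 * s * K) * k ^ (2 * s) := by
    calc S ≤ s * (2 * n + 1) * E := hS
      _ ≤ s * (3 * n) * E := by
          apply mul_le_mul_of_nonneg_right _ hE
          apply mul_le_mul_of_nonneg_left _ hs0.le
          linarith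
      _ = 3 * s * (n * E) := by ring
      _ ≤ 3 * s * (K * k ^ (2 * s)) := mul_le_mul_of_nonneg_left hNE (by positivity)
      _ = (3 * s * K) * k ^ (2 * s) := by ring
  calc S ^ (1 / (2 * s : ℝ)) ≤ ((3 * s * K) * k ^ (2 * s)) ^ (1 / (2 * s : ℝ)) :=
        Real.rpow_le_rpow hS0 h1 (by positivity)
    _ = (3 * s * K) ^ (1 / (2 * s : ℝ)) * k := by
        rw [Real.mul_rpow (by positivity) (by positivity)]
        congr 1
        rw [← Real.rpow_natCast, ← Real.rpow_mul hk]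
        push_cast
        rw [mul_one_div_cancel (by positivity), Real.rpow_one]

private lemma cs_step {ι : Type*} (H : Finset ι) (x y : ι → ℝ) (hx : ∀ h ∈ H, 0 ≤ x h)
    (hy : ∀ h ∈ H, 0 ≤ y h) (q r : ℝ) (hq : 0 < q) (hr : r = 2 * q) :
    (∑ h ∈ H, (x h * y h) ^ q) ^ (1 / q) ≤
      (∑ h ∈ H, x h ^ r) ^ (1 / r) * (∑ h ∈ H, y h ^ r) ^ (1 / r) := by
  have hX : 0 ≤ ∑ h ∈ H, x h ^ r := Finset.sum_nonneg (fun h hh => Real.rpow_nonneg (hx h hh) _)
  have hY : 0 ≤ ∑ h ∈ H, y h ^ r := Finset.sum_nonneg (fun h hh => Real.rpow_nonneg (hy h hh) _)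
  have h1 : ∑ h ∈ H, (x h * y h) ^ q ≤
      (∑ h ∈ H, x h ^ r) ^ (1 / (2:ℝ)) * (∑ h ∈ H, y h ^ r) ^ (1 / (2:ℝ)) := by
    have h2 := Real.inner_le_Lp_mul_Lq_of_nonneg H (f := fun h => x h ^ q) (g := fun h => y h ^ q)
      (p := 2) (q := 2) (by constructor <;> norm_num)
      (fun h hh => Real.rpow_nonneg (hx h hh) _) (fun h hh => Real.rpow_nonneg (hy h hh) _)
    have e1 : ∑ h ∈ H, (x h * y h) ^ q = ∑ h ∈ H, x h ^ q * y h ^ q :=
      Finset.sum_congr rfl (fun h hh => Real.mul_rpow (hx h hh) (hy h hh))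
    have e2 : ∑ h ∈ H, x h ^ r = ∑ h ∈ H, (x h ^ q) ^ (2:ℝ) :=
      Finset.sum_congr rfl (fun h hh => by rw [← Real.rpow_mul (hx h hh), hr, mul_comm 2 q])
    have e3 : ∑ h ∈ H, y h ^ r = ∑ h ∈ H, (y h ^ q) ^ (2:ℝ) :=
      Finset.sum_congr rfl (fun h hh => by rw [← Real.rpow_mul (hy h hh), hr, mul_comm 2 q])
    rw [e1, e2, e3]
    exact h2
  have h0 : 0 ≤ ∑ h ∈ H, (x h * y h) ^ q :=
    Finset.sum_nonneg (fun h hh => Real.rpow_nonneg (mul_nonneg (hx h hh) (hy h hh)) _)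
  calc (∑ h ∈ H, (x h * y h) ^ q) ^ (1 / q)
      ≤ ((∑ h ∈ H, x h ^ r) ^ (1 / (2:ℝ)) * (∑ h ∈ H, y h ^ r) ^ (1 / (2:ℝ))) ^ (1 / q) :=
        Real.rpow_le_rpow h0 h1 (by positivity)
    _ = (∑ h ∈ H, x h ^ r) ^ (1 / r) * (∑ h ∈ H, y h ^ r) ^ (1 / r) := by
        rw [Real.mul_rpow (Real.rpow_nonneg hX _) (Real.rpow_nonneg hY _),
          ← Real.rpow_mul hX, ← Real.rpow_mul hY]
        have : 1 / (2:ℝ) * (1 / q) = 1 / r := by rw [hr]; field_simp
        rw [this]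

/-- Translation modulo `M`. -/
theorem sum_shift (f : ℕ → ℝ) (M h : ℕ) (hh : h < M) :
    ∑ l ∈ range M, f ((l + (M - h)) % M) = ∑ l ∈ range M, f l := by
  have hM : 0 < M := by omega
  refine sum_nbij' (fun l => (l + (M - h)) % M) (fun l => (l + h) % M) ?_ ?_ ?_ ?_ ?_
  · intro l _
    exact mem_range.2 (Nat.mod_lt _ hM)
  · intro l _
    exact mem_range.2 (Nat.mod_lt _ hM)
  · intro l hl
    rw [mem_range] at hl
    show ((l + (M - h)) % M + h) % M = l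
    rw [Nat.mod_add_mod, show l + (M - h) + h = l + M by omega, Nat.add_mod_right,
      Nat.mod_eq_of_lt hl]
  · intro l hl
    rw [mem_range] at hl
    show ((l + h) % M + (M - h)) % M = l
    rw [Nat.mod_add_mod, show l + h + (M - h) = l + M by omega, Nat.add_mod_right,
      Nat.mod_eq_of_lt hl]
  · intro l _
    rfl

theorem ee_df (N n h h' : ℕ) (hh : h < 2 * N + 1) (hh' : h' < 2 * N + 1) :
    ee (n * df N (h, h')) = ee (n * fr N ((h' + (2 * N + 1 - h)) % (2 * N + 1))) := by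
  have hM : ((2 * N + 1 : ℕ) : ℝ) ≠ 0 := by positivity
  rcases le_or_gt h h' with hle | hlt
  · have e : (h' + (2 * N + 1 - h)) % (2 * N + 1) = h' - h := by
      rw [show h' + (2 * N + 1 - h) = (h' - h) + (2 * N + 1) by omega, Nat.add_mod_right,
        Nat.mod_eq_of_lt (by omega)]
    rw [e]
    congr 2
    unfold df fr
    simp only
    push_cast [Nat.cast_sub hle]
    ring
  · have e : (h' + (2 * N + 1 - h)) % (2 * N + 1) = h' + (2 * N + 1) - h := by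
      rw [show h' + (2 * N + 1 - h) = h' + (2 * N + 1) - h by omega,
        Nat.mod_eq_of_lt (by omega)]
    rw [e]
    have e2 : (n : ℝ) * df N (h, h') =
        (n : ℝ) * fr N (h' + (2 * N + 1) - h) + ((n : ℤ) : ℝ) := by
      unfold df fr
      simp only
      rw [Nat.cast_sub (by omega : h ≤ h' + (2 * N + 1))]
      push_cast
      push_cast at hM
      field_simp
      ring
    rw [e2, ee_add, ee_int, mul_one]

/-- The moment of order `2 s` of a row of the kernel. -/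
theorem row_sum {k : ℕ} (a : Fin k → ℕ) (s N : ℕ) (hs : 1 ≤ s) (ha : ∀ i, a i ≤ N) (h : ℕ)
    (hh : h ∈ range (2 * N + 1)) :
    ∑ h' ∈ range (2 * N + 1), ‖∑ i, ee (a i * df N (h, h'))‖ ^ (2 * s) ≤
      s * (2 * (N : ℝ) + 1) * energy a s := by
  have h1 := moment_energy a s N hs ha (fun _ => 1) (fun _ => by simp)
  rw [mem_range] at hh
  refine le_trans (le_of_eq ?_) h1
  rw [← sum_shift (fun l => ‖∑ i, ((1 : ℝ) : ℂ) * ee (a i * fr N l)‖ ^ (2 * s)) (2 * N + 1) h hh]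
  refine sum_congr rfl fun h' hh' => ?_
  rw [mem_range] at hh'
  congr 2
  refine sum_congr rfl fun i _ => ?_
  rw [ee_df N (a i) h h' hh hh']
  push_cast
  ring

theorem ker_symm {k : ℕ} (a : Fin k → ℕ) (N h h' : ℕ) :
    ‖∑ i, ee (a i * df N (h, h'))‖ = ‖∑ i, ee (a i * df N (h', h))‖ := by
  rw [← RCLike.norm_conj (∑ i, ee (a i * df N (h, h'))), map_sum]
  congr 1
  refine sum_congr rfl fun i _ => ?_
  rw [conj_ee]
  congr 1
  unfold df
  ring

theorem col_sum {k : ℕ} (a : Fin k → ℕ) (s N : ℕ) (hs : 1 ≤ s) (ha : ∀ i, a i ≤ N) (h' : ℕ)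
    (hh' : h' ∈ range (2 * N + 1)) :
    ∑ h ∈ range (2 * N + 1), ‖∑ i, ee (a i * df N (h, h'))‖ ^ (2 * s) ≤
      s * (2 * (N : ℝ) + 1) * energy a s := by
  refine le_trans (le_of_eq ?_) (row_sum a s N hs ha h' hh')
  refine sum_congr rfl fun h _ => ?_
  rw [ker_symm]

/-- The sum of the squares is at most a trilinear sum. -/
theorem sq_sum_le (v N k : ℕ) (a : Fin k → ℕ) (ha : ∀ i, a i ≤ N) :
    ∑ i, DD v N (a i) ^ 2 ≤ (1 / (2 * (N : ℝ) + 1)) ^ 2 *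
      ∑ h ∈ range (2 * N + 1), ∑ h' ∈ range (2 * N + 1),
        ‖FF v N h‖ * ‖FF v N h'‖ * ‖∑ i, ee (a i * df N (h, h'))‖ := by
  have h1 : ((∑ i, DD v N (a i) ^ 2 : ℝ) : ℂ) =
      ∑ x ∈ range (2 * N + 1) ×ˢ range (2 * N + 1), cf v N x * ∑ i, ee (a i * df N x) := by
    rw [Complex.ofReal_sum, sum_congr rfl fun i _ => dd_sq v N (a i) (ha i), sum_comm]
    refine sum_congr rfl fun x _ => ?_
    rw [mul_sum]
  have h2 : (∑ i, DD v N (a i) ^ 2 : ℝ) = ‖((∑ i, DD v N (a i) ^ 2 : ℝ) : ℂ)‖ := by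
    rw [Complex.norm_real, Real.norm_eq_abs, abs_of_nonneg]
    exact sum_nonneg fun i _ => sq_nonneg _
  have h5 : ‖(1 / (2 * (N : ℂ) + 1))‖ = 1 / (2 * (N : ℝ) + 1) := by
    have h6 : (1 / (2 * (N : ℂ) + 1)) = ((1 / (2 * (N : ℝ) + 1) : ℝ) : ℂ) := by
      push_cast
      rfl
    rw [h6, Complex.norm_real, Real.norm_eq_abs, abs_of_nonneg]
    positivity
  have h7 : ∀ x : ℕ × ℕ, ‖cf v N x‖ = (1 / (2 * (N : ℝ) + 1)) ^ 2 *
      (‖FF v N x.1‖ * ‖FF v N x.2‖) := by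
    intro x
    unfold cf
    rw [norm_mul, norm_pow, h5, norm_mul, RCLike.norm_conj]
  rw [h2, h1]
  refine (norm_sum_le _ _).trans (le_of_eq ?_)
  rw [sum_product, mul_sum]
  refine sum_congr rfl fun h _ => ?_
  rw [mul_sum]
  refine sum_congr rfl fun h' _ => ?_
  rw [norm_mul, h7]
  ring

/-- The mean square of the deviation over a family of small energy. -/
theorem sq_small (s : ℕ) (hs : 1 ≤ s) (K η : ℝ) (hK : 0 < K) (hη : 0 < η) :
    ∃ v₀ : ℕ, ∀ v : ℕ, v₀ ≤ v → ∃ N₀ : ℕ, ∀ N : ℕ, N₀ ≤ N → ∀ (k : ℕ) (a : Fin k → ℕ),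
      Fam s K N k a → ∑ i, DD v N (a i) ^ 2 ≤ η * k * (N : ℝ) ^ 2 := by
  have hs1 : (1 : ℝ) ≤ s := by exact_mod_cast hs
  have hs0 : (0 : ℝ) < s := by linarith
  have h41 : (0 : ℝ) < 4 * s - 1 := by linarith
  obtain ⟨δ, hδ⟩ : ∃ δ : ℝ, δ = 1 / (4 * s - 1) := ⟨_, rfl⟩
  have hδ0 : 0 < δ := by rw [hδ]; exact one_div_pos.2 h41
  obtain ⟨p, hp⟩ : ∃ p : ℝ, p = 2 + δ := ⟨_, rfl⟩
  obtain ⟨r, hr⟩ : ∃ r : ℝ, r = 2 + 2 * δ := ⟨_, rfl⟩
  obtain ⟨q, hq⟩ : ∃ q : ℝ, q = 1 + δ := ⟨_, rfl⟩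
  have hr0 : 0 < r := by rw [hr]; linarith
  have hq0 : 0 < q := by rw [hq]; linarith
  have hrq : r = 2 * q := by rw [hr, hq]; ring
  have hqs : q * (4 * s - 1) = 4 * s := by
    rw [hq, hδ]; field_simp; ring
  obtain ⟨C1, hC1, N1, h1⟩ := gh_moment p (by rw [hp]; linarith)
  obtain ⟨C2, hC2, N2, h2⟩ := gh_moment r (by rw [hr]; linarith)
  obtain ⟨C3, hC3, h3⟩ := wlog
  obtain ⟨A, hA⟩ : ∃ A : ℝ, A = ((2 ^ δ * C1) ^ (1 / r) * C2 ^ (1 / r)) ^ 2 *
      (3 * s * K) ^ (1 / (2 * s : ℝ)) := ⟨_, rfl⟩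
  have hA0 : 0 ≤ A := by rw [hA]; positivity
  obtain ⟨v₀, hv₀⟩ := eventually_small (A * C3 ^ 4) (2 * (δ / r)) η (by positivity)
    (by positivity) hη
  refine ⟨max v₀ 3, fun v hv => ?_⟩
  have hv3 : 3 ≤ v := (le_max_right _ _).trans hv
  have hvv : v₀ ≤ v := (le_max_left _ _).trans hv
  have hvR : (0 : ℝ) < v := by exact_mod_cast (by omega : 0 < v)
  obtain ⟨N3, h4⟩ := sup_le v hv3
  refine ⟨max (max N1 N2) (max N3 1), fun N hN k a hF => ?_⟩
  have hN1 : N1 ≤ N := (le_max_left _ _).trans ((le_max_left _ _).trans hN)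
  have hN2 : N2 ≤ N := (le_max_right _ _).trans ((le_max_left _ _).trans hN)
  have hN3 : N3 ≤ N := (le_max_left _ _).trans ((le_max_right _ _).trans hN)
  have hN4 : 1 ≤ N := (le_max_right _ _).trans ((le_max_right _ _).trans hN)
  have hNR : (1 : ℝ) ≤ N := by exact_mod_cast hN4
  have hNR0 : (0 : ℝ) < N := by linarith
  obtain ⟨hF1, hF2⟩ := hF
  have hκ : 1 ≤ kap v := one_le_kap v
  have hκ0 : 0 < kap v := by linarith
  have hκ3 : kap v ≤ C3 * Real.log v := h3 v (by omega)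
  have hX := root_X (r := r) (p := p) (δ := δ) (C := C1) (κ := kap v) (V := v) (n := N)
    (S := ∑ h ∈ range (2 * N + 1), ‖gh v N (fr N h)‖ ^ r) hδ0 hp hr hC1 hκ hvR hNR0
    (by positivity) (by
      refine (sup_rpow (range (2 * N + 1)) (fun h => ‖gh v N (fr N h)‖)
        (fun h _ => norm_nonneg _) (2 / v * N) p r (by rw [hp]; linarith)
        (by rw [hr, hp]; linarith) (fun h _ => h4 N hN3 _) (by positivity)).trans ?_
      exact mul_le_mul_of_nonneg_left (h1 N hN1 v).1 (by positivity))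
  have hY := root_Y (r := r) (C := C2) (κ := kap v) (n := N)
    (S := ∑ h ∈ range (2 * N + 1), ‖gp v N (fr N h)‖ ^ r) hr0 hC2 hκ hNR0
    (by positivity) (h2 N hN2 v).2
  have hk0 : (0 : ℝ) ≤ k := by positivity
  have hZ := root_Z (s := s) hs (K := K) (n := N) (k := k) (E := energy a s)
    (S := s * (2 * (N : ℝ) + 1) * energy a s) hK hNR
    hk0 (by positivity) (by positivity) le_rfl hF2
  -- the norm of FF
  have hFF : (∑ h ∈ range (2 * N + 1), ‖FF v N h‖ ^ q) ^ (1 / q) ≤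
      ((2 ^ δ * C1) ^ (1 / r) * (v : ℝ) ^ (-(δ / r)) * N * kap v) *
        (C2 ^ (1 / r) * N * kap v) := by
    have e1 : ∀ h ∈ range (2 * N + 1), ‖FF v N h‖ ^ q =
        (‖gh v N (fr N h)‖ * ‖gp v N (fr N h)‖) ^ q := by
      intro h _
      unfold FF
      rw [norm_mul]
    rw [sum_congr rfl e1]
    refine (cs_step (range (2 * N + 1)) (fun h => ‖gh v N (fr N h)‖)
      (fun h => ‖gp v N (fr N h)‖) (fun h _ => norm_nonneg _) (fun h _ => norm_nonneg _)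
      q r hq0 hrq).trans ?_
    exact mul_le_mul hX hY (by positivity) (by positivity)
  have hFF2 : (∑ h ∈ range (2 * N + 1), ‖FF v N h‖ ^ q) ^ (2 / q) ≤
      (((2 ^ δ * C1) ^ (1 / r) * (v : ℝ) ^ (-(δ / r)) * N * kap v) *
        (C2 ^ (1 / r) * N * kap v)) ^ 2 := by
    have e2 : (∑ h ∈ range (2 * N + 1), ‖FF v N h‖ ^ q) ^ (2 / q) =
        ((∑ h ∈ range (2 * N + 1), ‖FF v N h‖ ^ q) ^ (1 / q)) ^ 2 := by
      rw [← Real.rpow_natCast, ← Real.rpow_mul (by positivity)]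
      congr 1
      push_cast
      ring
    rw [e2]
    exact pow_le_pow_left₀ (by positivity) hFF 2
  have hY2 := young (range (2 * N + 1)) (fun h => ‖FF v N h‖)
    (fun h h' => ‖∑ i, ee (a i * df N (h, h'))‖) s hs q (s * (2 * (N : ℝ) + 1) * energy a s) hqs
    (fun _ _ => norm_nonneg _) (fun _ _ _ _ => norm_nonneg _) (by positivity)
    (fun h hh => row_sum a s N hs (fun i => (hF1 i).2) h hh)
    (fun h hh => col_sum a s N hs (fun i => (hF1 i).2) h hh)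
  have hall := (sq_sum_le v N k a (fun i => (hF1 i).2)).trans
    (mul_le_mul_of_nonneg_left (hY2.trans (mul_le_mul hFF2 hZ (by positivity) (by positivity)))
      (by positivity : (0 : ℝ) ≤ (1 / (2 * (N : ℝ) + 1)) ^ 2))
  have hvv2 : ((v : ℝ) ^ (-(δ / r))) ^ 2 = (v : ℝ) ^ (-(2 * (δ / r))) := by
    rw [← Real.rpow_natCast, ← Real.rpow_mul hvR.le]
    congr 1
    push_cast
    ring
  calc ∑ i, DD v N (a i) ^ 2 ≤ _ := hall
    _ ≤ (1 / (N : ℝ)) ^ 2 *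
        ((((2 ^ δ * C1) ^ (1 / r) * (v : ℝ) ^ (-(δ / r)) * N * kap v) *
        (C2 ^ (1 / r) * N * kap v)) ^ 2 * ((3 * s * K) ^ (1 / (2 * s : ℝ)) * k)) := by
        refine mul_le_mul_of_nonneg_right ?_ (by positivity)
        refine pow_le_pow_left₀ (by positivity) ?_ 2
        exact one_div_le_one_div_of_le hNR0 (by linarith)
    _ = A * kap v ^ 4 * (v : ℝ) ^ (-(2 * (δ / r))) * (k * (N : ℝ) ^ 2) := by
        rw [hA, ← hvv2]
        field_simp
    _ ≤ A * (C3 * Real.log v) ^ 4 * (v : ℝ) ^ (-(2 * (δ / r))) * (k * (N : ℝ) ^ 2) := by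
        have h5 : kap v ^ 4 ≤ (C3 * Real.log v) ^ 4 := pow_le_pow_left₀ hκ0.le hκ3 4
        refine mul_le_mul_of_nonneg_right (mul_le_mul_of_nonneg_right
          (mul_le_mul_of_nonneg_left h5 hA0) (by positivity)) (by positivity)
    _ = (A * C3 ^ 4 * (Real.log v) ^ 4) * (v : ℝ) ^ (-(2 * (δ / r))) * (k * (N : ℝ) ^ 2) := by
        ring
    _ ≤ (η * (v : ℝ) ^ (2 * (δ / r))) * (v : ℝ) ^ (-(2 * (δ / r))) * (k * (N : ℝ) ^ 2) := by
        refine mul_le_mul_of_nonneg_right (mul_le_mul_of_nonneg_right (hv₀ v hvv)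
          (by positivity)) (by positivity)
    _ = η * k * (N : ℝ) ^ 2 := by
        have h6 : (v : ℝ) ^ (2 * (δ / r)) * (v : ℝ) ^ (-(2 * (δ / r))) = 1 := by
          rw [← Real.rpow_add hvR, add_neg_cancel, Real.rpow_zero]
        rw [show (η * (v : ℝ) ^ (2 * (δ / r))) * (v : ℝ) ^ (-(2 * (δ / r))) * (k * (N : ℝ) ^ 2) =
          η * ((v : ℝ) ^ (2 * (δ / r)) * (v : ℝ) ^ (-(2 * (δ / r)))) * (k * (N : ℝ) ^ 2) by ring,
          h6]
        ring

end Pool.Agent.Lib.MP_629a14_nt.Fc
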