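import Pool.Agent.Lib.MP_629a14_nt.Fc.LOne

/-! The square of `DD` as a trigonometric polynomial, and the comparison of the mean squares. -/

set_option autoImplicit false

namespace Pool.Agent.Lib.MP_629a14_nt.Fc

open Finset Pool.Agent.Lib.MP_629a14_nt Pool.Agent.Lib.MP_629a14_nt.Rob
  Pool.Agent.Lib.MP_629a14_nt.En

/-- The difference of two frequencies. -/
noncomputable def df (N : ℕ) (x : ℕ × ℕ) : ℝ := fr N x.2 - fr N x.1

/-- The coefficients of the square of `DD`. -/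
noncomputable def cf (v N : ℕ) (x : ℕ × ℕ) : ℂ :=
  (1 / (2 * (N : ℂ) + 1)) ^ 2 * (FF v N x.1 * (starRingEnd ℂ) (FF v N x.2))

theorem dd_sq (v N n : ℕ) (hn : n ≤ N) : ((DD v N n ^ 2 : ℝ) : ℂ) =
    ∑ x ∈ range (2 * N + 1) ×ˢ range (2 * N + 1), cf v N x * ee (n * df N x) := by
  have h1 := dd_fourier v N n hn
  have h2 : (DD v N n : ℂ) = (starRingEnd ℂ) (DD v N n : ℂ) := (Complex.conj_ofReal _).symm
  have h3 : ((DD v N n ^ 2 : ℝ) : ℂ) = (DD v N n : ℂ) * (starRingEnd ℂ) (DD v N n : ℂ) := by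
    rw [← h2]
    push_cast
    ring
  rw [h3, h1, map_mul, map_sum, mul_mul_mul_comm, sum_mul_sum, sum_product, mul_sum]
  have h4 : (starRingEnd ℂ) (1 / (2 * (N : ℂ) + 1)) = 1 / (2 * (N : ℂ) + 1) := by
    have : (1 / (2 * (N : ℂ) + 1)) = ((1 / (2 * (N : ℝ) + 1) : ℝ) : ℂ) := by
      push_cast
      rfl
    rw [this, Complex.conj_ofReal]
  rw [h4]
  refine sum_congr rfl fun h _ => ?_
  rw [mul_sum]
  refine sum_congr rfl fun h' _ => ?_
  have e : ee (n * df N (h, h')) = ee (-(n * fr N h)) * (starRingEnd ℂ) (ee (-(n * fr N h'))) := by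
    rw [conj_ee, ← ee_add]
    congr 1
    unfold df
    ring
  rw [e, cf, map_mul, map_mul]
  unfold FF
  rw [map_mul]
  ring

theorem cf_sum (v N : ℕ) :
    ∑ x ∈ range (2 * N + 1) ×ˢ range (2 * N + 1), ‖cf v N x‖ =
      ((1 / (2 * (N : ℝ) + 1)) * ∑ h ∈ range (2 * N + 1), ‖FF v N h‖) ^ 2 := by
  have h5 : ‖(1 / (2 * (N : ℂ) + 1))‖ = 1 / (2 * (N : ℝ) + 1) := by
    have h6 : (1 / (2 * (N : ℂ) + 1)) = ((1 / (2 * (N : ℝ) + 1) : ℝ) : ℂ) := by
      push_cast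
      rfl
    rw [h6, Complex.norm_real, Real.norm_eq_abs, abs_of_nonneg]
    positivity
  have h7 : ∀ x : ℕ × ℕ, ‖cf v N x‖ = (1 / (2 * (N : ℝ) + 1)) ^ 2 * (‖FF v N x.1‖ * ‖FF v N x.2‖) := by
    intro x
    unfold cf
    rw [norm_mul, norm_pow, h5, norm_mul, RCLike.norm_conj]
  rw [sum_congr rfl fun x _ => h7 x, ← mul_sum, sum_product, mul_pow, sq (∑ h ∈ _, _), sum_mul_sum]

/-- The mean squares of `DD` over two families which are close differ by at most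
`β (6 N log N) ^ 2`. -/
theorem sq_transfer (v : ℕ) : ∃ N₀ : ℕ, ∀ N : ℕ, N₀ ≤ N → ∀ (k m : ℕ) (β : ℝ) (a : Fin k → ℕ)
    (b : Fin m → ℕ), (∀ i, a i ≤ N) → (∀ j, b j ≤ N) → Close β a b →
    (∑ j, DD v N (b j) ^ 2) / (m : ℝ) ≤ (∑ i, DD v N (a i) ^ 2) / (k : ℝ) +
      β * (6 * (N * Real.log N)) ^ 2 := by
  obtain ⟨N₀, h⟩ := l_one v
  refine ⟨N₀, fun N hN k m β a b ha hb hc => ?_⟩
  have hβ : 0 ≤ β := (norm_nonneg _).trans (hc 0)
  have h1 := avg_close_real hc (range (2 * N + 1) ×ˢ range (2 * N + 1)) (cf v N) (df N)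
    (fun n => DD v N n ^ 2) (fun j => dd_sq v N (b j) (hb j)) (fun i => dd_sq v N (a i) (ha i))
  rw [cf_sum] at h1
  have h2 := h N hN
  have h3 : (1 / (2 * (N : ℝ) + 1)) * ∑ h ∈ range (2 * N + 1), ‖FF v N h‖ ≤
      6 * (N * Real.log N) := by
    rw [one_div, inv_mul_le_iff₀ (by positivity)]
    calc _ ≤ _ := h2
      _ = _ := by ring
  have h4 : ((1 / (2 * (N : ℝ) + 1)) * ∑ h ∈ range (2 * N + 1), ‖FF v N h‖) ^ 2 ≤
      (6 * (N * Real.log N)) ^ 2 :=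
    pow_le_pow_left₀ (mul_nonneg (by positivity) (sum_nonneg fun _ _ => norm_nonneg _)) h3 2
  have h5 := (le_abs_self _).trans h1
  have h6 := mul_le_mul_of_nonneg_left h4 hβ
  linarith

end Pool.Agent.Lib.MP_629a14_nt.Fc
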