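import Pool.Agent.Lib.MP_629a14_nt.WienerNorm
import Pool.Agent.Lib.MP_629a14_nt.Sharp
import Pool.Agent.Lib.MP_629a14_nt.Top
import Pool.Agent.Lib.MP_629a14_nt.En.Sing

/-! The reciprocal of the singular series and its truncations. -/

set_option autoImplicit false

namespace Pool.Agent.Lib.MP_629a14_nt.Fc

open Finset Pool.Agent.Lib.MP_629a14_nt Pool.Agent.Lib.MP_629a14_nt.Rob
  Pool.Agent.Lib.MP_629a14_nt.En
open Pool.Agent.Lib.MP_60b32f_nt (rep)

/-- The product of `(p - 2) / (p - 1)` over the odd primes dividing `n`. -/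
noncomputable def tf (n : ℕ) : ℝ :=
  ∏ p ∈ n.primeFactors.filter (fun p => 2 < p), (1 - 1 / ((p : ℝ) - 1))

/-- The odd primes up to `v`. -/
def odp (v : ℕ) : Finset ℕ := (range (v + 1)).filter (fun p => p.Prime ∧ 2 < p)

/-- The truncation of `tf`. -/
noncomputable def tv (v n : ℕ) : ℝ := ∏ p ∈ odp v, (1 - 1 / ((p : ℝ) - 1) * (if p ∣ n then 1 else 0))

theorem fac_mem {p : ℕ} (hp : 2 < p) : 0 < 1 - 1 / ((p : ℝ) - 1) ∧ 1 - 1 / ((p : ℝ) - 1) ≤ 1 := by
  have h3 : (3 : ℝ) ≤ p := by exact_mod_cast hp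
  have h1 : 1 / ((p : ℝ) - 1) ≤ 1 / 2 := one_div_le_one_div_of_le (by norm_num) (by linarith)
  have h2 : 0 < 1 / ((p : ℝ) - 1) := one_div_pos.2 (by linarith)
  exact ⟨by linarith, by linarith⟩

theorem tf_pos (n : ℕ) : 0 < tf n := prod_pos fun _ hp => (fac_mem (mem_filter.1 hp).2).1

theorem tf_le_one (n : ℕ) : tf n ≤ 1 :=
  prod_le_one (fun _ hp => (fac_mem (mem_filter.1 hp).2).1.le)
    fun _ hp => (fac_mem (mem_filter.1 hp).2).2

theorem sing_tf (n : ℕ) : sing n * tf n = 2 * tw := by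
  unfold sing tf
  rw [mul_assoc, ← prod_mul_distrib]
  have : ∀ p ∈ n.primeFactors.filter (fun p => 2 < p),
      (((p : ℝ) - 1) / ((p : ℝ) - 2)) * (1 - 1 / ((p : ℝ) - 1)) = 1 := by
    intro p hp
    have h3 : (3 : ℝ) ≤ p := by exact_mod_cast (mem_filter.1 hp).2
    have h1 : (p : ℝ) - 1 ≠ 0 := by linarith
    have h2 : (p : ℝ) - 2 ≠ 0 := by linarith
    field_simp
    ring
  rw [prod_congr rfl this, prod_const_one, mul_one]

theorem tv_nonneg (v n : ℕ) : 0 ≤ tv v n := by
  unfold tv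
  refine prod_nonneg fun p hp => ?_
  have := fac_mem (mem_filter.1 hp).2.2
  split_ifs <;> linarith [this.1]

theorem tv_le_one (v n : ℕ) : tv v n ≤ 1 := by
  unfold tv
  refine prod_le_one (fun p hp => ?_) fun p hp => ?_
  · have := fac_mem (mem_filter.1 hp).2.2
    split_ifs <;> linarith [this.1]
  · have := fac_mem (mem_filter.1 hp).2.2
    split_ifs <;> linarith [this.2]

/-- `tf` is the product of `tv` and of the contribution of the primes larger than `v`. -/
theorem tf_eq (v n : ℕ) (hv : 2 ≤ v) (hn : 1 ≤ n) : tf n =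
    tv v n * ∏ p ∈ n.primeFactors.filter (fun p => v < p), (1 - 1 / ((p : ℝ) - 1)) := by
  classical
  have h1 : tv v n = ∏ p ∈ n.primeFactors.filter (fun p => 2 < p ∧ p ≤ v),
      (1 - 1 / ((p : ℝ) - 1)) := by
    unfold tv
    have : ∀ p ∈ odp v, (1 - 1 / ((p : ℝ) - 1) * (if p ∣ n then (1 : ℝ) else 0)) =
        if p ∣ n then (1 - 1 / ((p : ℝ) - 1)) else 1 := by
      intro p _
      split_ifs <;> ring
    rw [prod_congr rfl this, ← prod_filter]
    refine prod_congr ?_ fun _ _ => rfl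
    ext p
    simp only [odp, mem_filter, mem_range, Nat.mem_primeFactors]
    constructor
    · rintro ⟨⟨h1, h2, h3⟩, h4⟩
      exact ⟨⟨h2, h4, by omega⟩, h3, by omega⟩
    · rintro ⟨⟨h2, h4, _⟩, h3, h5⟩
      exact ⟨⟨by omega, h2, h3⟩, h4⟩
  rw [h1]
  unfold tf
  rw [← prod_filter_mul_prod_filter_not (n.primeFactors.filter (fun p => 2 < p))
    (fun p => p ≤ v), filter_filter, filter_filter]
  congr 1
  refine prod_congr ?_ fun _ _ => rfl
  ext p
  simp only [mem_filter]
  constructor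
  · rintro ⟨h1, _, h3⟩
    exact ⟨h1, by omega⟩
  · rintro ⟨h1, h2⟩
    exact ⟨h1, by omega, by omega⟩

/-- `1 - ∏ (1 - x) ≤ ∑ x`. -/
theorem one_sub_prod {ι : Type*} (S : Finset ι) (x : ι → ℝ) (h0 : ∀ i ∈ S, 0 ≤ x i)
    (h1 : ∀ i ∈ S, x i ≤ 1) : 1 - ∏ i ∈ S, (1 - x i) ≤ ∑ i ∈ S, x i := by
  classical
  induction S using Finset.induction_on with
  | empty => simp
  | insert i S hi ih =>
    have ih' := ih (fun j hj => h0 j (mem_insert_of_mem hj))
      (fun j hj => h1 j (mem_insert_of_mem hj))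
    have a0 := h0 i (mem_insert_self i S)
    have a1 := h1 i (mem_insert_self i S)
    have b1 : ∏ j ∈ S, (1 - x j) ≤ 1 := prod_le_one
      (fun j hj => by have := h1 j (mem_insert_of_mem hj); linarith)
      (fun j hj => by have := h0 j (mem_insert_of_mem hj); linarith)
    rw [prod_insert hi, sum_insert hi]
    nlinarith

theorem tf_sub_tv (v n : ℕ) (hv : 2 ≤ v) (hn : 1 ≤ n) : |tf n - tv v n| ≤
    2 * ∑ p ∈ n.primeFactors.filter (fun p => v < p), 1 / (p : ℝ) := by
  have h3 : ∀ p ∈ n.primeFactors.filter (fun p => v < p), 2 < p := by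
    intro p hp
    have := (mem_filter.1 hp).2
    omega
  have h4 := one_sub_prod (n.primeFactors.filter (fun p => v < p))
    (fun p => 1 / ((p : ℝ) - 1)) (fun p hp => by
      have := fac_mem (h3 p hp)
      linarith [this.2]) (fun p hp => by
      have := fac_mem (h3 p hp)
      linarith [this.1])
  have h5 : ∑ p ∈ n.primeFactors.filter (fun p => v < p), 1 / ((p : ℝ) - 1) ≤
      2 * ∑ p ∈ n.primeFactors.filter (fun p => v < p), 1 / (p : ℝ) := by
    rw [mul_sum]
    refine sum_le_sum fun p hp => ?_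
    have h6 : (3 : ℝ) ≤ p := by exact_mod_cast h3 p hp
    rw [mul_one_div, div_le_div_iff₀ (by linarith) (by linarith)]
    linarith
  have h7 : ∏ p ∈ n.primeFactors.filter (fun p => v < p), (1 - 1 / ((p : ℝ) - 1)) ≤ 1 :=
    prod_le_one (fun p hp => (fac_mem (h3 p hp)).1.le) fun p hp => (fac_mem (h3 p hp)).2
  rw [tf_eq v n hv hn]
  set P := ∏ p ∈ n.primeFactors.filter (fun p => v < p), (1 - 1 / ((p : ℝ) - 1)) with hP
  have h8 : tv v n * P - tv v n = -(tv v n * (1 - P)) := by ring
  have h9 := tv_nonneg v n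
  have h10 := tv_le_one v n
  rw [h8, abs_neg, abs_of_nonneg (mul_nonneg h9 (by linarith))]
  calc tv v n * (1 - P) ≤ 1 * (1 - P) := mul_le_mul_of_nonneg_right h10 (by linarith)
    _ ≤ _ := by linarith

/-- The truncation is a trigonometric polynomial of bounded complexity. -/
theorem wi_tv (N v : ℕ) : Wi N (fun n => (tv v n : ℂ)) (2 ^ (v + 1)) := by
  classical
  have key : ∀ S : Finset ℕ, (∀ p ∈ S, 2 < p) →
      Wi N (fun n => ((∏ p ∈ S, (1 - 1 / ((p : ℝ) - 1) * (if p ∣ n then 1 else 0)) : ℝ) : ℂ))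
        (2 ^ S.card) := by
    intro S
    induction S using Finset.induction_on with
    | empty =>
      intro _
      refine ((Wi.const (N := N) (1 : ℂ)).congr fun n _ => ?_).mono ?_
      · simp
      · simp
    | insert p S hp ih =>
      intro hS
      have h1 := ih fun q hq => hS q (mem_insert_of_mem hq)
      have h2 := hS p (mem_insert_self p S)
      have h3 := fac_mem h2
      have h4 : Wi N (fun n => (((1 - 1 / ((p : ℝ) - 1) * (if p ∣ n then 1 else 0) : ℝ)) : ℂ)) 2 := by
        have h5 := (Wi.const (N := N) (1 : ℂ)).sub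
          ((Wi.dvd (N := N) (show 0 < p by omega)).smul ((1 / ((p : ℝ) - 1) : ℝ) : ℂ))
        refine (h5.congr fun n _ => ?_).mono ?_
        · push_cast
          split_ifs <;> simp
        · rw [norm_one, Complex.norm_real, Real.norm_of_nonneg (by linarith [h3.2]), mul_one]
          linarith [h3.1]
      refine ((h4.mul h1).congr fun n _ => ?_).mono ?_
      · rw [prod_insert hp, Complex.ofReal_mul]
      · rw [card_insert_of_notMem hp, pow_succ]
        linarith
  refine (key (odp v) fun p hp => (mem_filter.1 hp).2.2).mono ?_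
  refine pow_le_pow_right₀ (by norm_num) ?_
  unfold odp
  refine (card_filter_le _ _).trans ?_
  rw [card_range]

/-- The number of representations divided by the value predicted for all primes. -/
noncomputable def RR (A B : Finset ℕ) (n : ℕ) : ℝ := (repAB A B n : ℝ) / HL n

theorem RR_eq (A B : Finset ℕ) (n : ℕ) :
    RR A B n = (repAB A B n : ℝ) * tf n * (Real.log n) ^ 2 / (2 * tw * n) := by
  have h1 := sing_tf n
  have h2 := tf_pos n
  have h3 := tw_pos
  have h4 : sing n = 2 * tw / tf n := by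
    rw [eq_div_iff h2.ne']
    exact h1
  unfold RR HL
  rw [h4]
  rcases eq_or_ne (n : ℝ) 0 with h5 | h5
  · rw [h5]
    simp
  · rcases eq_or_ne (Real.log n) 0 with h6 | h6
    · rw [h6]
      simp
    · field_simp

theorem RR_nonneg (A B : Finset ℕ) (n : ℕ) : 0 ≤ RR A B n := by
  rw [RR_eq]
  have := tf_pos n
  have := tw_pos
  positivity

/-- `n / φ(n)` times `tf n` is at most `2`. -/
theorem phi_tf (n : ℕ) (hn : 1 ≤ n) : ((n : ℝ) / n.totient) * tf n ≤ 2 := by
  classical
  have hphi : (0 : ℝ) < n.totient := by exact_mod_cast Nat.totient_pos.2 (by omega)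
  have h1 : ((n : ℝ) / n.totient) = ∏ p ∈ n.primeFactors, ((p : ℝ) / ((p : ℝ) - 1)) := by
    have h2 := Nat.totient_mul_prod_primeFactors n
    have h3 : ((n.totient : ℝ)) * ∏ p ∈ n.primeFactors, (p : ℝ) =
        n * ∏ p ∈ n.primeFactors, ((p : ℝ) - 1) := by
      have h4 : ((n.totient * ∏ p ∈ n.primeFactors, p : ℕ) : ℝ) =
          ((n * ∏ p ∈ n.primeFactors, (p - 1) : ℕ) : ℝ) := by rw [h2]
      push_cast at h4
      rw [h4]
      congr 1
      refine prod_congr rfl fun p hp => ?_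
      rw [Nat.cast_sub (Nat.prime_of_mem_primeFactors hp).one_lt.le]
      simp
    have h5 : (∏ p ∈ n.primeFactors, ((p : ℝ) - 1)) ≠ 0 := by
      rw [prod_ne_zero_iff]
      intro p hp
      have : (2 : ℝ) ≤ p := by exact_mod_cast (Nat.prime_of_mem_primeFactors hp).two_le
      linarith
    rw [prod_div_distrib, div_eq_div_iff hphi.ne' h5]
    linarith
  rw [h1]
  unfold tf
  rw [← prod_filter_mul_prod_filter_not n.primeFactors (fun p => 2 < p)
    (fun p => (p : ℝ) / ((p : ℝ) - 1)), mul_right_comm, ← prod_mul_distrib]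
  have h6 : ∏ p ∈ n.primeFactors.filter (fun p => 2 < p),
      ((p : ℝ) / ((p : ℝ) - 1) * (1 - 1 / ((p : ℝ) - 1))) ≤ 1 := by
    refine prod_le_one (fun p hp => ?_) fun p hp => ?_
    · have h3 : (3 : ℝ) ≤ p := by exact_mod_cast (mem_filter.1 hp).2
      have := (fac_mem (mem_filter.1 hp).2).1
      exact mul_nonneg (div_nonneg (by linarith) (by linarith)) this.le
    · have h3 : (3 : ℝ) ≤ p := by exact_mod_cast (mem_filter.1 hp).2
      have h4 : (p : ℝ) / ((p : ℝ) - 1) * (1 - 1 / ((p : ℝ) - 1)) =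
          (p * (p - 2)) / ((p : ℝ) - 1) ^ 2 := by
        have : (p : ℝ) - 1 ≠ 0 := by linarith
        field_simp
        ring
      rw [h4, div_le_one (by nlinarith)]
      nlinarith
  have h7 : ∏ p ∈ n.primeFactors.filter (fun p => ¬ 2 < p), ((p : ℝ) / ((p : ℝ) - 1)) ≤ 2 := by
    have hsub : n.primeFactors.filter (fun p => ¬ 2 < p) ⊆ {2} := by
      intro p hp
      rw [mem_filter] at hp
      have := (Nat.prime_of_mem_primeFactors hp.1).two_le
      rw [mem_singleton]
      omega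
    rcases Finset.subset_singleton_iff.1 hsub with h8 | h8
    · rw [h8]
      simp
    · rw [h8, prod_singleton]
      norm_num
  have h8 : 0 ≤ ∏ p ∈ n.primeFactors.filter (fun p => 2 < p),
      ((p : ℝ) / ((p : ℝ) - 1) * (1 - 1 / ((p : ℝ) - 1))) := by
    refine prod_nonneg fun p hp => ?_
    have h3 : (3 : ℝ) ≤ p := by exact_mod_cast (mem_filter.1 hp).2
    have := (fac_mem (mem_filter.1 hp).2).1
    exact mul_nonneg (div_nonneg (by linarith) (by linarith)) this.le
  have h9 : 0 ≤ ∏ p ∈ n.primeFactors.filter (fun p => ¬ 2 < p), ((p : ℝ) / ((p : ℝ) - 1)) := by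
    refine prod_nonneg fun p hp => ?_
    have : (2 : ℝ) ≤ p := by
      exact_mod_cast (Nat.prime_of_mem_primeFactors (mem_filter.1 hp).1).two_le
    exact div_nonneg (by linarith) (by linarith)
  nlinarith

theorem RR_le {A B : Finset ℕ} (hA : ∀ p ∈ A, p.Prime) (hB : ∀ p ∈ B, p.Prime) {n : ℕ}
    (hn : 1 ≤ n) : RR A B n ≤ 18480 / tw := by
  have htw := tw_pos
  have htf := tf_pos n
  rw [RR_eq]
  rcases hn.eq_or_lt with h | h
  · rw [← h]
    simp
    positivity
  · have hnr : (1 : ℝ) < n := by exact_mod_cast h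
    have hlog : 0 < Real.log n := Real.log_pos hnr
    have hphi : (0 : ℝ) < n.totient := by exact_mod_cast Nat.totient_pos.2 (by omega)
    have h1 := Sharp.rep_sharp n (by omega)
    have h2 : (repAB A B n : ℝ) ≤ rep n := by exact_mod_cast reps_le_rep hA hB n
    have h3 := h2.trans h1
    have h4 := phi_tf n hn
    rw [div_le_div_iff₀ (by positivity) htw]
    calc (repAB A B n : ℝ) * tf n * (Real.log n) ^ 2 * tw
        ≤ (18480 * ((n : ℝ) / (n.totient : ℝ)) * n / (Real.log n) ^ 2) * tf n *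
          (Real.log n) ^ 2 * tw := by gcongr
      _ = 18480 * (((n : ℝ) / (n.totient : ℝ)) * tf n) * (n * tw) := by
          field_simp
      _ ≤ 18480 * 2 * (n * tw) := by gcongr
      _ = 18480 * (2 * tw * n) := by ring

end Pool.Agent.Lib.MP_629a14_nt.Fc
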