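import Pool.Agent.Lib.MP_629a14_nt.Fc.Second
import Pool.Agent.Lib.MP_629a14_nt.Decomp
import Pool.Agent.Lib.MP_629a14_nt.En.Moment

/-! Decomposition of the number of representations by two sets of primes, with a bound for the
mean square of the small part over families of small energy. -/

set_option autoImplicit false

namespace Pool.Agent.Lib.MP_629a14_nt.Fc

open Finset Pool.Agent.Lib.MP_629a14_nt Pool.Agent.Lib.MP_629a14_nt.Rob
  Pool.Agent.Lib.MP_629a14_nt.En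

/-- All moments of order larger than two of `TT` are bounded. -/
theorem tt_moment (p : ℝ) (hp : 2 < p) : ∃ C : ℝ, 0 < C ∧ ∀ N Q : ℕ, 3 ≤ N →
    Q = ⌊(N : ℝ) ^ (1 / 4 : ℝ)⌋₊ → ∀ A : Finset ℕ, (∀ p ∈ A, p.Prime ∧ Q < p ∧ p ≤ N) →
    (A.card : ℝ) ≤ 2 * (N / Real.log N) →
    ∑ h ∈ range (2 * N + 1), TT N A h ^ p ≤ C := by
  obtain ⟨δ, hδ⟩ : ∃ δ : ℝ, δ = (p - 2) / (2 * p) := ⟨_, rfl⟩
  have hp0 : 0 < p := by linarith
  have hδ0 : 0 < δ := by
    rw [hδ]
    exact div_pos (by linarith) (by linarith)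
  have hpδ : p * (1 - δ) = (p + 2) / 2 := by
    rw [hδ]
    field_simp
    ring
  have hδ1 : δ < 1 := by
    rw [hδ, div_lt_one (by linarith)]
    linarith
  obtain ⟨C₁, hC₁, hTT⟩ := TT_low δ hδ0
  obtain ⟨B₁, hB₁, hlev⟩ := level_moment δ p C₁ hδ0 hδ1 hC₁.le (by rw [hpδ]; linarith)
  exact ⟨B₁, hB₁, fun N Q hN hQ A hA hAc => hlev _ _ (fun h _ => TT_nonneg N A h)
    (fun R hR => hTT N Q hN hQ A hA hAc R hR)⟩

/-- The part of the sum where the first factor is small. -/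
theorem small_part {ι : Type} (H : Finset ι) (X Y : ι → ℝ) (hX : ∀ h ∈ H, 0 ≤ X h)
    (hY : ∀ h ∈ H, 0 ≤ Y h) {δ q τ C1 C2 : ℝ} (hδ : 0 < δ) (hq : q = 1 + δ) (hτ : 0 < τ)
    (hC1 : ∑ h ∈ H, X h ^ (2 + δ) ≤ C1) (hC2 : ∑ h ∈ H, Y h ^ (2 + 2 * δ) ≤ C2) :
    ∑ h ∈ H.filter (fun h => X h ≤ τ), (X h * Y h) ^ q ≤
      (τ ^ δ * C1) ^ (1 / 2 : ℝ) * C2 ^ (1 / 2 : ℝ) := by
  classical
  have hq0 : 0 < q := by rw [hq]; linarith
  have h1 := Real.inner_le_Lp_mul_Lq_of_nonneg (H.filter (fun h => X h ≤ τ))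
    (f := fun h => X h ^ q) (g := fun h => Y h ^ q) (p := 2) (q := 2)
    (by constructor <;> norm_num)
    (fun h hh => Real.rpow_nonneg (hX h (mem_filter.1 hh).1) _)
    (fun h hh => Real.rpow_nonneg (hY h (mem_filter.1 hh).1) _)
  have e1 : ∑ h ∈ H.filter (fun h => X h ≤ τ), (X h * Y h) ^ q =
      ∑ h ∈ H.filter (fun h => X h ≤ τ), X h ^ q * Y h ^ q :=
    sum_congr rfl fun h hh => Real.mul_rpow (hX h (mem_filter.1 hh).1) (hY h (mem_filter.1 hh).1)
  rw [e1]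
  refine h1.trans ?_
  have hXs : ∑ h ∈ H.filter (fun h => X h ≤ τ), (X h ^ q) ^ (2 : ℝ) ≤ τ ^ δ * C1 := by
    calc ∑ h ∈ H.filter (fun h => X h ≤ τ), (X h ^ q) ^ (2 : ℝ)
        ≤ ∑ h ∈ H.filter (fun h => X h ≤ τ), τ ^ δ * X h ^ (2 + δ) := by
          refine sum_le_sum fun h hh => ?_
          obtain ⟨hh1, hh2⟩ := mem_filter.1 hh
          have h0 := hX h hh1
          rw [← Real.rpow_mul h0]
          rcases h0.eq_or_lt with h3 | h3
          · rw [← h3, Real.zero_rpow (by positivity)]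
            positivity
          · have e2 : q * 2 = δ + (2 + δ) := by rw [hq]; ring
            rw [e2, Real.rpow_add h3]
            exact mul_le_mul_of_nonneg_right (Real.rpow_le_rpow h0 hh2 hδ.le)
              (Real.rpow_nonneg h0 _)
      _ ≤ τ ^ δ * ∑ h ∈ H, X h ^ (2 + δ) := by
          rw [← mul_sum]
          refine mul_le_mul_of_nonneg_left ?_ (by positivity)
          exact sum_le_sum_of_subset_of_nonneg (filter_subset _ _)
            fun h hh _ => Real.rpow_nonneg (hX h hh) _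
      _ ≤ _ := mul_le_mul_of_nonneg_left hC1 (by positivity)
  have hYs : ∑ h ∈ H.filter (fun h => X h ≤ τ), (Y h ^ q) ^ (2 : ℝ) ≤ C2 := by
    refine le_trans ?_ hC2
    refine (sum_le_sum_of_subset_of_nonneg (filter_subset _ _)
      fun h hh _ => Real.rpow_nonneg (Real.rpow_nonneg (hY h hh) _) _).trans (le_of_eq ?_)
    refine sum_congr rfl fun h hh => ?_
    rw [← Real.rpow_mul (hY h hh)]
    congr 1
    rw [hq]
    ring
  have hXn : 0 ≤ ∑ h ∈ H.filter (fun h => X h ≤ τ), (X h ^ q) ^ (2 : ℝ) :=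
    sum_nonneg fun h hh => Real.rpow_nonneg (Real.rpow_nonneg (hX h (mem_filter.1 hh).1) _) _
  have hYn : 0 ≤ ∑ h ∈ H.filter (fun h => X h ≤ τ), (Y h ^ q) ^ (2 : ℝ) :=
    sum_nonneg fun h hh => Real.rpow_nonneg (Real.rpow_nonneg (hY h (mem_filter.1 hh).1) _) _
  exact mul_le_mul (Real.rpow_le_rpow hXn hXs (by norm_num))
    (Real.rpow_le_rpow hYn hYs (by norm_num)) (Real.rpow_nonneg hYn _)
    (Real.rpow_nonneg (hXn.trans hXs) _)

/-- The mean square of a trigonometric polynomial over a family. -/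
theorem poly_sq {k : ℕ} (N : ℕ) (H : Finset ℕ) (c : ℕ → ℂ) (a : Fin k → ℕ) :
    ∑ i, ‖∑ h ∈ H, c h * ee (((h : ℝ) / (2 * N + 1 : ℕ)) * a i)‖ ^ 2 ≤
      ∑ h ∈ H, ∑ h' ∈ H, ‖c h‖ * ‖c h'‖ * ‖∑ i, ee (a i * df N (h, h'))‖ := by
  have key : ∀ i, ((‖∑ h ∈ H, c h * ee (((h : ℝ) / (2 * N + 1 : ℕ)) * a i)‖ ^ 2 : ℝ) : ℂ) =
      ∑ h ∈ H, ∑ h' ∈ H, c h * (starRingEnd ℂ) (c h') * ee (a i * df N (h, h')) := by
    intro i
    rw [Complex.ofReal_pow, ← Complex.mul_conj', map_sum, sum_mul_sum]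
    refine sum_congr rfl fun h _ => sum_congr rfl fun k _ => ?_
    rw [map_mul, conj_ee]
    have e : ee (a i * df N (h, k)) =
        ee (((h : ℝ) / (2 * N + 1 : ℕ)) * a i) * ee (-(((k : ℝ) / (2 * N + 1 : ℕ)) * a i)) := by
      rw [← ee_add]
      congr 1
      unfold df fr
      push_cast
      ring
    rw [e]
    ring
  have h1 : ((∑ i, ‖∑ h ∈ H, c h * ee (((h : ℝ) / (2 * N + 1 : ℕ)) * a i)‖ ^ 2 : ℝ) : ℂ) =
      ∑ h ∈ H, ∑ h' ∈ H, c h * (starRingEnd ℂ) (c h') * ∑ i, ee (a i * df N (h, h')) := by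
    rw [Complex.ofReal_sum, sum_congr rfl fun i _ => key i, sum_comm]
    refine sum_congr rfl fun h _ => ?_
    rw [sum_comm]
    refine sum_congr rfl fun h' _ => ?_
    rw [mul_sum]
  have h2 : (∑ i, ‖∑ h ∈ H, c h * ee (((h : ℝ) / (2 * N + 1 : ℕ)) * a i)‖ ^ 2 : ℝ) =
      ‖((∑ i, ‖∑ h ∈ H, c h * ee (((h : ℝ) / (2 * N + 1 : ℕ)) * a i)‖ ^ 2 : ℝ) : ℂ)‖ := by
    rw [Complex.norm_real, Real.norm_eq_abs, abs_of_nonneg]
    exact sum_nonneg fun i _ => by positivity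
  rw [h2, h1]
  refine (norm_sum_le _ _).trans (sum_le_sum fun h _ => ?_)
  refine (norm_sum_le _ _).trans (sum_le_sum fun h' _ => ?_)
  rw [norm_mul, norm_mul, RCLike.norm_conj]

/-- Decomposition of the normalised number of representations. -/
theorem decomp2 (s : ℕ) (hs : 1 ≤ s) (K η : ℝ) (hK : 0 < K) (hη : 0 < η) :
    ∃ W1 : ℝ, 0 < W1 ∧ ∀ N Q : ℕ, 3 ≤ N → Q = ⌊(N : ℝ) ^ (1 / 4 : ℝ)⌋₊ → ∀ A B : Finset ℕ,
    (∀ p ∈ A, p.Prime ∧ Q < p ∧ p ≤ N) → (∀ p ∈ B, p.Prime ∧ Q < p ∧ p ≤ N) →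
    (A.card : ℝ) ≤ 2 * (N / Real.log N) → (B.card : ℝ) ≤ 2 * (N / Real.log N) →
    ∃ s1 : ℕ → ℂ, Wi N s1 W1 ∧
      Wi N (fun n => (sf N A B n : ℂ) - s1 n) (2 * Real.log N) ∧
      ∀ (k : ℕ) (a : Fin k → ℕ), Fam s K N k a →
        ∑ i, ‖(sf N A B (a i) : ℂ) - s1 (a i)‖ ^ 2 ≤ η * k := by
  classical
  have hs1 : (1 : ℝ) ≤ s := by exact_mod_cast hs
  have hs0 : (0 : ℝ) < s := by linarith
  have h41 : (0 : ℝ) < 4 * s - 1 := by linarith
  obtain ⟨δ, hδ⟩ : ∃ δ : ℝ, δ = 1 / (4 * s - 1) := ⟨_, rfl⟩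
  have hδ0 : 0 < δ := by rw [hδ]; exact one_div_pos.2 h41
  obtain ⟨q, hq⟩ : ∃ q : ℝ, q = 1 + δ := ⟨_, rfl⟩
  have hq0 : 0 < q := by rw [hq]; linarith
  have hqs : q * (4 * s - 1) = 4 * s := by
    rw [hq, hδ]; field_simp; ring
  obtain ⟨C1, hC1, h1⟩ := tt_moment (2 + δ) (by linarith)
  obtain ⟨C2, hC2, h2⟩ := tt_moment (2 + 2 * δ) (by linarith)
  -- choice of the threshold
  have hlim : Filter.Tendsto (fun τ : ℝ => (2 * ((τ ^ δ * C1) ^ (1 / 2 : ℝ) * C2 ^ (1 / 2 : ℝ)))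
      ^ (2 / q) * (3 * s * K) ^ (1 / (2 * s : ℝ))) (nhds 0)
      (nhds ((2 * (((0 : ℝ) ^ δ * C1) ^ (1 / 2 : ℝ) * C2 ^ (1 / 2 : ℝ)))
      ^ (2 / q) * (3 * s * K) ^ (1 / (2 * s : ℝ)))) := by
    refine Filter.Tendsto.mul_const _ ?_
    refine Filter.Tendsto.rpow_const ?_ (Or.inr (by positivity))
    refine Filter.Tendsto.const_mul _ ?_
    refine Filter.Tendsto.mul_const _ ?_
    refine Filter.Tendsto.rpow_const ?_ (Or.inr (by norm_num))
    refine Filter.Tendsto.mul_const _ ?_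
    exact (Real.continuous_rpow_const hδ0.le).continuousAt.tendsto
  have hz : (2 * (((0 : ℝ) ^ δ * C1) ^ (1 / 2 : ℝ) * C2 ^ (1 / 2 : ℝ)))
      ^ (2 / q) * (3 * s * K) ^ (1 / (2 * s : ℝ)) = 0 := by
    rw [Real.zero_rpow hδ0.ne', zero_mul, Real.zero_rpow (by norm_num), zero_mul, mul_zero,
      Real.zero_rpow (by positivity), zero_mul]
  rw [hz] at hlim
  obtain ⟨τ, hτ0, hτ⟩ : ∃ τ : ℝ, 0 < τ ∧
      (2 * ((τ ^ δ * C1) ^ (1 / 2 : ℝ) * C2 ^ (1 / 2 : ℝ)))
      ^ (2 / q) * (3 * s * K) ^ (1 / (2 * s : ℝ)) ≤ η := by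
    have h3 := hlim.eventually (gt_mem_nhds hη)
    obtain ⟨ρ, hρ, h4⟩ := Metric.eventually_nhds_iff.1 h3
    refine ⟨ρ / 2, by positivity, (h4 ?_).le⟩
    rw [Real.dist_eq, sub_zero, abs_of_pos (by positivity)]
    linarith
  refine ⟨τ ^ (-δ) * C1, by positivity, fun N Q hN hQ A B hA hB hAc hBc => ?_⟩
  have hNr : (3 : ℝ) ≤ N := by exact_mod_cast hN
  have hN0 : (0 : ℝ) < N := by linarith
  have hL : 0 < Real.log N := Real.log_pos (by linarith)
  set M : ℕ := 2 * N + 1 with hM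
  have hMpos : 0 < M := by omega
  have hM0 : (0 : ℝ) < M := by exact_mod_cast hMpos
  have hNM : (N : ℝ) ≤ M := by rw [hM]; push_cast; linarith
  set L : ℝ := Real.log N with hLdef
  set c : ℕ → ℂ := fun h => ((L ^ 2 / N : ℝ) : ℂ) * ((1 / (M : ℂ)) * (fs N A h * fs N B h)) with hc
  have hcn : ∀ h, ‖c h‖ = (N / M) * (TT N A h * TT N B h) := by
    intro h
    simp only [hc, TT]
    rw [norm_mul, norm_mul, norm_mul, norm_div, norm_one, Complex.norm_natCast,
      Complex.norm_real, Real.norm_of_nonneg (by positivity), ← hLdef]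
    field_simp
  have hNM1 : (N : ℝ) / M ≤ 1 := by rw [div_le_one hM0]; exact hNM
  have hNM0 : 0 ≤ (N : ℝ) / M := by positivity
  have hTA0 := TT_nonneg N A
  have hTB0 := TT_nonneg N B
  have hAle : ∀ p ∈ A, p ≤ N := fun p hp => (hA p hp).2.2
  have hBle : ∀ p ∈ B, p ≤ N := fun p hp => (hB p hp).2.2
  have hcle : ∀ h, ‖c h‖ ≤ TT N A h * TT N B h := by
    intro h
    rw [hcn h]
    exact mul_le_of_le_one_left (mul_nonneg (hTA0 h) (hTB0 h)) hNM1
  have hA1 := h1 N Q hN hQ A hA hAc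
  have hB1 := h1 N Q hN hQ B hB hBc
  have hA2 := h2 N Q hN hQ A hA hAc
  have hB2 := h2 N Q hN hQ B hB hBc
  rw [← hM] at hA1 hB1 hA2 hB2
  set Lam : Finset ℕ := (range M).filter (fun h => τ ≤ TT N A h ∧ τ ≤ TT N B h) with hLam
  have hLamsub : Lam ⊆ range M := filter_subset _ _
  have hser : ∀ n ∈ Icc 1 N, (sf N A B n : ℂ) = ∑ h ∈ range M, c h * ee (((h : ℝ) / M) * n) := by
    intro n hn
    have h1 := rep_fourier A B hAle hBle (mem_Icc.1 hn).2
    rw [← hM] at h1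
    unfold sf
    rw [← hLdef, Complex.ofReal_mul, Complex.ofReal_natCast, h1, mul_sum]
    refine sum_congr rfl fun h _ => ?_
    simp only [hc, fs]
    rw [← hM]
    ring
  set s1 : ℕ → ℂ := fun n => ∑ h ∈ Lam, c h * ee (((h : ℝ) / M) * n) with hs1
  have hs2 : ∀ n ∈ Icc 1 N, (sf N A B n : ℂ) - s1 n =
      ∑ h ∈ range M \ Lam, c h * ee (((h : ℝ) / M) * n) := by
    intro n hn
    rw [hser n hn, hs1]
    simp only
    rw [← sum_sdiff hLamsub]
    ring
  refine ⟨s1, ?_, ?_, ?_⟩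
  · refine (Wi.sum Lam (fun h n => c h * ee (((h : ℝ) / M) * n)) (fun h => ‖c h‖)
      (fun h _ => Wi.char _ _)).mono ?_
    have hpow : ∀ X : ℝ, τ ≤ X → X ^ 2 ≤ τ ^ (-δ) * X ^ (2 + δ) := by
      intro X hX
      have hX0 : 0 < X := by linarith
      rw [Real.rpow_add hX0, Real.rpow_two, Real.rpow_neg hτ0.le]
      have h3 : τ ^ δ ≤ X ^ δ := Real.rpow_le_rpow hτ0.le hX hδ0.le
      have h4 : 0 < τ ^ δ := Real.rpow_pos_of_pos hτ0 _
      have h5 : 1 ≤ (τ ^ δ)⁻¹ * X ^ δ := by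
        rw [inv_mul_eq_div, one_le_div h4]
        exact h3
      calc X ^ 2 = 1 * X ^ 2 := (one_mul _).symm
        _ ≤ ((τ ^ δ)⁻¹ * X ^ δ) * X ^ 2 := mul_le_mul_of_nonneg_right h5 (by positivity)
        _ = _ := by ring
    calc ∑ h ∈ Lam, ‖c h‖
        ≤ ∑ h ∈ Lam, (τ ^ (-δ) * TT N A h ^ (2 + δ) + τ ^ (-δ) * TT N B h ^ (2 + δ)) / 2 := by
          refine sum_le_sum fun h hh => ?_
          rw [hLam, mem_filter] at hh
          have h3 := hpow _ hh.2.1
          have h4 := hpow _ hh.2.2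
          have h5 := hcle h
          nlinarith [sq_nonneg (TT N A h - TT N B h)]
      _ = τ ^ (-δ) * ((∑ h ∈ Lam, TT N A h ^ (2 + δ) + ∑ h ∈ Lam, TT N B h ^ (2 + δ)) / 2) := by
          rw [← sum_div, sum_add_distrib, ← mul_sum, ← mul_sum]
          ring
      _ ≤ τ ^ (-δ) * ((C1 + C1) / 2) := by
          have h3 : ∑ h ∈ Lam, TT N A h ^ (2 + δ) ≤ C1 := le_trans
            (sum_le_sum_of_subset_of_nonneg hLamsub
              fun h _ _ => Real.rpow_nonneg (hTA0 h) _) hA1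
          have h4 : ∑ h ∈ Lam, TT N B h ^ (2 + δ) ≤ C1 := le_trans
            (sum_le_sum_of_subset_of_nonneg hLamsub
              fun h _ _ => Real.rpow_nonneg (hTB0 h) _) hB1
          refine mul_le_mul_of_nonneg_left ?_ (by positivity)
          linarith
      _ = _ := by ring
  · have h1 := Wi.sum (N := N) (range M \ Lam) (fun h n => c h * ee (((h : ℝ) / M) * n))
      (fun h => ‖c h‖) (fun h _ => Wi.char _ _)
    refine (h1.congr hs2).mono ?_
    have hA2 : ∑ h ∈ range M, TT N A h ^ 2 = (M * A.card) * (L / N) ^ 2 := by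
      have h2 := parseval_set A hAle
      rw [← hM] at h2
      rw [← h2, sum_mul]
      refine sum_congr rfl fun h _ => ?_
      unfold TT fs
      rw [mul_pow]
    have hB2 : ∑ h ∈ range M, TT N B h ^ 2 = (M * B.card) * (L / N) ^ 2 := by
      have h2 := parseval_set B hBle
      rw [← hM] at h2
      rw [← h2, sum_mul]
      refine sum_congr rfl fun h _ => ?_
      unfold TT fs
      rw [mul_pow]
    calc ∑ h ∈ range M \ Lam, ‖c h‖ ≤ ∑ h ∈ range M, ‖c h‖ :=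
          sum_le_sum_of_subset_of_nonneg sdiff_subset (fun _ _ _ => norm_nonneg _)
      _ ≤ ∑ h ∈ range M, (N / M) * ((TT N A h ^ 2 + TT N B h ^ 2) / 2) := by
          refine sum_le_sum fun h _ => ?_
          rw [hcn h]
          refine mul_le_mul_of_nonneg_left ?_ hNM0
          nlinarith [sq_nonneg (TT N A h - TT N B h)]
      _ = (N / M) * (((M * A.card) * (L / N) ^ 2 + (M * B.card) * (L / N) ^ 2) / 2) := by
          rw [← mul_sum, ← sum_div, sum_add_distrib, hA2, hB2]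
      _ = (L ^ 2 / N) * (((A.card : ℝ) + B.card) / 2) := by
          field_simp
      _ ≤ (L ^ 2 / N) * ((2 * (N / L) + 2 * (N / L)) / 2) := by
          gcongr
      _ = 2 * L := by
          field_simp
          ring
  · intro k a ha
    set H : Finset ℕ := range M \ Lam with hH
    have haN : ∀ i, a i ∈ Icc 1 N := fun i => mem_Icc.2 (ha.1 i)
    have e1 : ∑ i, ‖(sf N A B (a i) : ℂ) - s1 (a i)‖ ^ 2 =
        ∑ i, ‖∑ h ∈ H, c h * ee (((h : ℝ) / (2 * N + 1 : ℕ)) * a i)‖ ^ 2 :=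
      sum_congr rfl fun i _ => by rw [hs2 (a i) (haN i)]
    rw [e1]
    have hpq : ∑ h ∈ H, ‖c h‖ ^ q ≤ 2 * ((τ ^ δ * C1) ^ (1 / 2 : ℝ) * C2 ^ (1 / 2 : ℝ)) := by
      have g1 := small_part (range M) (TT N A) (TT N B) (fun h _ => hTA0 h) (fun h _ => hTB0 h)
        hδ0 hq hτ0 hA1 hB2
      have g2 := small_part (range M) (TT N B) (TT N A) (fun h _ => hTB0 h) (fun h _ => hTA0 h)
        hδ0 hq hτ0 hB1 hA2
      have hnn : ∀ h, 0 ≤ (TT N A h * TT N B h) ^ q :=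
        fun h => Real.rpow_nonneg (mul_nonneg (hTA0 h) (hTB0 h)) _
      calc ∑ h ∈ H, ‖c h‖ ^ q ≤ ∑ h ∈ H, (TT N A h * TT N B h) ^ q :=
            sum_le_sum fun h _ => Real.rpow_le_rpow (norm_nonneg _) (hcle h) hq0.le
        _ ≤ ∑ h ∈ (range M).filter (fun h => TT N A h ≤ τ) ∪
            (range M).filter (fun h => TT N B h ≤ τ), (TT N A h * TT N B h) ^ q := by
            refine sum_le_sum_of_subset_of_nonneg ?_ fun h _ _ => hnn h
            intro h hh
            rw [hH, mem_sdiff, hLam, mem_filter] at hh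
            rw [mem_union, mem_filter, mem_filter]
            by_cases h1 : τ ≤ TT N A h
            · right
              refine ⟨hh.1, ?_⟩
              by_contra h2
              push Not at h2
              exact hh.2 ⟨hh.1, h1, h2.le⟩
            · left
              push Not at h1
              exact ⟨hh.1, h1.le⟩
        _ ≤ ∑ h ∈ (range M).filter (fun h => TT N A h ≤ τ), (TT N A h * TT N B h) ^ q +
            ∑ h ∈ (range M).filter (fun h => TT N B h ≤ τ), (TT N A h * TT N B h) ^ q := by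
            rw [← sum_union_inter]
            have : 0 ≤ ∑ h ∈ (range M).filter (fun h => TT N A h ≤ τ) ∩
              (range M).filter (fun h => TT N B h ≤ τ), (TT N A h * TT N B h) ^ q :=
              sum_nonneg fun h _ => hnn h
            linarith
        _ ≤ (τ ^ δ * C1) ^ (1 / 2 : ℝ) * C2 ^ (1 / 2 : ℝ) +
            (τ ^ δ * C1) ^ (1 / 2 : ℝ) * C2 ^ (1 / 2 : ℝ) := by
            refine add_le_add g1 ?_
            have e : ∀ h, (TT N A h * TT N B h) ^ q = (TT N B h * TT N A h) ^ q :=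
              fun h => by rw [mul_comm]
            simp only [e]
            exact g2
        _ = _ := by ring
    have hY := young H (fun h => ‖c h‖) (fun h h' => ‖∑ i, ee (a i * df N (h, h'))‖) s hs q
      (s * (2 * (N : ℝ) + 1) * energy a s) hqs (fun _ _ => norm_nonneg _)
      (fun _ _ _ _ => norm_nonneg _) (by positivity)
      (fun h hh => (sum_le_sum_of_subset_of_nonneg sdiff_subset
        fun _ _ _ => pow_nonneg (norm_nonneg _) _).trans
        (row_sum a s N hs (fun i => (ha.1 i).2) h (sdiff_subset hh)))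
      (fun h hh => (sum_le_sum_of_subset_of_nonneg sdiff_subset
        fun _ _ _ => pow_nonneg (norm_nonneg _) _).trans
        (col_sum a s N hs (fun i => (ha.1 i).2) h (sdiff_subset hh)))
    have hZ : (s * (2 * (N : ℝ) + 1) * energy a s) ^ (1 / (2 * s : ℝ)) ≤
        (3 * s * K) ^ (1 / (2 * s : ℝ)) * k := by
      have h1 : s * (2 * (N : ℝ) + 1) * energy a s ≤ (3 * s * K) * (k : ℝ) ^ (2 * s) := by
        calc s * (2 * (N : ℝ) + 1) * energy a s ≤ s * (3 * N) * energy a s := by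
              apply mul_le_mul_of_nonneg_right _ (Nat.cast_nonneg _)
              apply mul_le_mul_of_nonneg_left _ hs0.le
              linarith
          _ = 3 * s * (N * energy a s) := by ring
          _ ≤ 3 * s * (K * (k : ℝ) ^ (2 * s)) := mul_le_mul_of_nonneg_left ha.2 (by positivity)
          _ = _ := by ring
      calc (s * (2 * (N : ℝ) + 1) * energy a s) ^ (1 / (2 * s : ℝ))
          ≤ ((3 * s * K) * (k : ℝ) ^ (2 * s)) ^ (1 / (2 * s : ℝ)) :=
            Real.rpow_le_rpow (by positivity) h1 (by positivity)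
        _ = _ := by
            rw [Real.mul_rpow (by positivity) (by positivity)]
            congr 1
            rw [← Real.rpow_natCast, ← Real.rpow_mul (Nat.cast_nonneg _)]
            push_cast
            rw [mul_one_div_cancel (by positivity), Real.rpow_one]
    calc ∑ i, ‖∑ h ∈ H, c h * ee (((h : ℝ) / (2 * N + 1 : ℕ)) * a i)‖ ^ 2
        ≤ _ := poly_sq N H c a
      _ ≤ _ := hY
      _ ≤ (2 * ((τ ^ δ * C1) ^ (1 / 2 : ℝ) * C2 ^ (1 / 2 : ℝ))) ^ (2 / q) *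
          ((3 * s * K) ^ (1 / (2 * s : ℝ)) * k) := by
          refine mul_le_mul (Real.rpow_le_rpow ?_ hpq (by positivity)) hZ (by positivity)
            (by positivity)
          exact sum_nonneg fun h _ => Real.rpow_nonneg (norm_nonneg _) _
      _ = ((2 * ((τ ^ δ * C1) ^ (1 / 2 : ℝ) * C2 ^ (1 / 2 : ℝ))) ^ (2 / q) *
          (3 * s * K) ^ (1 / (2 * s : ℝ))) * k := by ring
      _ ≤ η * k := mul_le_mul_of_nonneg_right hτ (Nat.cast_nonneg _)

end Pool.Agent.Lib.MP_629a14_nt.Fc
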