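import Pool.Agent.Lib.MP_629a14_nt.Fc.Defs
import Pool.Agent.Lib.MP_629a14_nt.PhiTrunc

/-! The weights defined by a family. -/

set_option autoImplicit false

namespace Pool.Agent.Lib.MP_629a14_nt.Fc

open Finset Pool.Agent.Lib.MP_629a14_nt Pool.Agent.Lib.MP_629a14_nt.Rob
  Pool.Agent.Lib.MP_629a14_nt.En

/-- The proportion of the indices `j` with `b j = n`. -/
noncomputable def wt {m : ℕ} (b : Fin m → ℕ) (n : ℕ) : ℝ :=
  (((univ : Finset (Fin m)).filter (fun j => b j = n)).card : ℝ) / m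

theorem wt_sum_gen {m : ℕ} (b : Fin m → ℕ) (S : Finset ℕ) (φ : ℕ → ℝ) :
    ∑ n ∈ S, wt b n * φ n = (∑ j ∈ (univ : Finset (Fin m)).filter (fun j => b j ∈ S),
      φ (b j)) / m := by
  classical
  have h1 : ∀ n ∈ S, wt b n * φ n =
      (∑ j ∈ ((univ : Finset (Fin m)).filter (fun j => b j ∈ S)).filter (fun j => b j = n),
        φ (b j)) / m := by
    intro n hn
    unfold wt
    have h2 : ((univ : Finset (Fin m)).filter (fun j => b j ∈ S)).filter (fun j => b j = n) =
        (univ : Finset (Fin m)).filter (fun j => b j = n) := by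
      ext j
      simp only [mem_filter, mem_univ, true_and]
      constructor
      · exact fun h => h.2
      · intro h
        exact ⟨by rw [h]; exact hn, h⟩
    rw [h2]
    have h3 : ∑ j ∈ (univ : Finset (Fin m)).filter (fun j => b j = n), φ (b j) =
        (((univ : Finset (Fin m)).filter (fun j => b j = n)).card : ℝ) * φ n := by
      rw [← nsmul_eq_mul, ← sum_const]
      exact sum_congr rfl fun j hj => by rw [(mem_filter.1 hj).2]
    rw [h3]
    ring
  rw [sum_congr rfl h1, ← sum_div]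
  congr 1
  refine sum_fiberwise_of_maps_to (g := b) ?_ _
  intro j hj
  exact (mem_filter.1 hj).2

theorem wt_sum {m N : ℕ} (b : Fin m → ℕ) (hb : ∀ j, b j ∈ Icc 1 N) (φ : ℕ → ℝ) :
    ∑ n ∈ Icc 1 N, wt b n * φ n = (∑ j, φ (b j)) / m := by
  rw [wt_sum_gen]
  congr 2
  exact filter_true_of_mem fun j _ => hb j

theorem wt_filter {m N : ℕ} (b : Fin m → ℕ) (hb : ∀ j, b j ∈ Icc 1 N) (P : ℕ → Prop)
    [DecidablePred P] : ∑ n ∈ (Icc 1 N).filter P, wt b n =
      (((univ : Finset (Fin m)).filter (fun j => P (b j))).card : ℝ) / m := by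
  have h := wt_sum_gen b ((Icc 1 N).filter P) (fun _ => 1)
  simp only [mul_one] at h
  rw [h, sum_const, nsmul_eq_mul, mul_one]
  congr 3
  ext j
  simp only [mem_filter, mem_univ, true_and]
  constructor
  · exact fun h => h.2
  · intro h
    exact ⟨hb j, h⟩

theorem isWt {m N : ℕ} (b : Fin m → ℕ) (hm : 0 < m) (hb : ∀ j, b j ∈ Icc 1 N) :
    IsWt N (wt b) := by
  refine ⟨fun n _ => by unfold wt; positivity, ?_⟩
  have h := wt_sum b hb (fun _ => 1)
  simp only [mul_one] at h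
  rw [h, sum_const, card_univ, Fintype.card_fin, nsmul_eq_mul, mul_one, div_self]
  exact_mod_cast hm.ne'

theorem wt_ee {m N : ℕ} (b : Fin m → ℕ) (hb : ∀ j, b j ∈ Icc 1 N) (t : ℝ) :
    ∑ n ∈ Icc 1 N, (wt b n : ℂ) * ee (t * n) = (∑ j, ee (b j * t)) / (m : ℂ) := by
  classical
  have h1 : ∀ n ∈ Icc 1 N, (wt b n : ℂ) * ee (t * n) =
      (∑ j ∈ (univ : Finset (Fin m)).filter (fun j => b j = n), ee (b j * t)) / (m : ℂ) := by
    intro n _
    unfold wt
    have h3 : ∑ j ∈ (univ : Finset (Fin m)).filter (fun j => b j = n), ee (b j * t) =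
        (((univ : Finset (Fin m)).filter (fun j => b j = n)).card : ℂ) * ee (t * n) := by
      rw [← nsmul_eq_mul, ← sum_const]
      exact sum_congr rfl fun j hj => by rw [(mem_filter.1 hj).2, mul_comm]
    rw [h3]
    push_cast
    ring
  rw [sum_congr rfl h1, ← sum_div]
  congr 1
  exact sum_fiberwise_of_maps_to (g := b) (fun j _ => hb j) _

theorem close_wt {k m N : ℕ} {β : ℝ} {a : Fin k → ℕ} {b : Fin m → ℕ} (h : Close β a b)
    (ha : ∀ i, a i ∈ Icc 1 N) (hb : ∀ j, b j ∈ Icc 1 N) (t : ℝ) :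
    ‖∑ n ∈ Icc 1 N, ((wt b n - wt a n : ℝ) : ℂ) * ee (t * n)‖ ≤ β := by
  have e : ∑ n ∈ Icc 1 N, ((wt b n - wt a n : ℝ) : ℂ) * ee (t * n) =
      (∑ j, ee (b j * t)) / (m : ℂ) - (∑ i, ee (a i * t)) / (k : ℂ) := by
    rw [← wt_ee b hb t, ← wt_ee a ha t, ← sum_sub_distrib]
    refine sum_congr rfl fun n _ => ?_
    push_cast
    ring
  rw [e]
  exact h t

end Pool.Agent.Lib.MP_629a14_nt.Fc
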